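import Mathlib

/-!
# Disjoint subfamilies of centred intervals and the centred maximal function on the line
-/

open MeasureTheory Set
open scoped ENNReal Pointwise

namespace Pool.Agent.H796R2.CI

/-- The open interval `(x - δ x, x + δ x)`. -/
def I (δ : ℝ → ℝ) (x : ℝ) : Set ℝ := Ioo (x - δ x) (x + δ x)

/-- `c` is admissible: for every compact `E` and every choice of radii there is a countable
subfamily of pairwise disjoint centred intervals of total length at least `c * |E|`. -/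
def Admissible (c : ℝ) : Prop :=
  ∀ E : Set ℝ, IsCompact E → ∀ δ : ℝ → ℝ, (∀ x ∈ E, 0 < δ x) →
    ∃ s : Set ℝ, s ⊆ E ∧ s.Countable ∧ s.PairwiseDisjoint (I δ) ∧
      ENNReal.ofReal c * volume E ≤ ∑' x : s, volume (I δ x)

/-- The centred Hardy-Littlewood maximal function on the line. -/
noncomputable def M (f : ℝ → ℝ) (x : ℝ) : ℝ≥0∞ :=
  ⨆ (r : ℝ) (_ : 0 < r), (∫⁻ y in Ioo (x - r) (x + r), ‖f y‖ₑ) / ENNReal.ofReal (2 * r)

/-- The weak type (1,1) inequality with constant `A`. -/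
def WeakType (A : ℝ) : Prop :=
  ∀ f : ℝ → ℝ, Integrable f → ∀ t : ℝ, 0 < t →
    volume {x | ENNReal.ofReal t < M f x} ≤ ENNReal.ofReal (A / t) * ∫⁻ y, ‖f y‖ₑ

lemma volume_I (δ : ℝ → ℝ) (x : ℝ) : volume (I δ x) = ENNReal.ofReal (2 * δ x) := by
  rw [I, Real.volume_Ioo]; congr 1; ring

/-- superlevel sets of the maximal function are open -/
lemma isOpen_level (f : ℝ → ℝ) (t : ℝ) : IsOpen {x | ENNReal.ofReal t < M f x} := by
  rw [isOpen_iff_mem_nhds]
  intro x hx
  simp only [mem_ofPred_eq, M, lt_iSup_iff] at hx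
  obtain ⟨r, hr, hx⟩ := hx
  have h2r : ENNReal.ofReal (2 * r) ≠ 0 := by simp; linarith
  have h2r' : ENNReal.ofReal (2 * r) ≠ ⊤ := ENNReal.ofReal_ne_top
  rw [ENNReal.lt_div_iff_mul_lt (Or.inl h2r) (Or.inl h2r')] at hx
  -- continuity from below
  have hmono : Monotone (fun n : ℕ => Ioo (x - r + 1 / ((n : ℝ) + 1)) (x + r - 1 / ((n : ℝ) + 1))) := by
    intro m n hmn
    have : 1 / ((n : ℝ) + 1) ≤ 1 / ((m : ℝ) + 1) := Nat.one_div_le_one_div hmn
    exact Ioo_subset_Ioo (by linarith) (by linarith)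
  have hun : ⋃ n : ℕ, Ioo (x - r + 1 / ((n : ℝ) + 1)) (x + r - 1 / ((n : ℝ) + 1)) = Ioo (x - r) (x + r) := by
    ext y
    simp only [mem_iUnion, mem_Ioo]
    constructor
    · rintro ⟨n, h1, h2⟩
      have : 0 < 1 / ((n : ℝ) + 1) := Nat.one_div_pos_of_nat
      exact ⟨by linarith, by linarith⟩
    · rintro ⟨h1, h2⟩
      obtain ⟨n, hn⟩ := exists_nat_one_div_lt (show 0 < min (y - (x - r)) (x + r - y) from
        lt_min (by linarith) (by linarith))
      exact ⟨n, by linarith [lt_min_iff.1 hn], by linarith [lt_min_iff.1 hn]⟩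
  have hlim := setLIntegral_iUnion_of_directed (μ := volume) (fun y => ‖f y‖ₑ)
    (hmono.directed_le)
  rw [hun] at hlim
  rw [hlim, lt_iSup_iff] at hx
  obtain ⟨n, hn⟩ := hx
  have hpos : 0 < 1 / ((n : ℝ) + 1) := Nat.one_div_pos_of_nat
  filter_upwards [Ioo_mem_nhds (show x - 1 / ((n : ℝ) + 1) < x by linarith)
    (show x < x + 1 / ((n : ℝ) + 1) by linarith)] with y hy
  simp only [M]
  refine lt_of_lt_of_le ?_ (le_iSup₂ (f := fun (r : ℝ) (_ : 0 < r) =>
    (∫⁻ z in Ioo (y - r) (y + r), ‖f z‖ₑ) / ENNReal.ofReal (2 * r)) r hr)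
  rw [ENNReal.lt_div_iff_mul_lt (Or.inl h2r) (Or.inl h2r')]
  refine lt_of_lt_of_le hn (lintegral_mono_set ?_)
  exact Ioo_subset_Ioo (by linarith [hy.1, hy.2]) (by linarith [hy.1, hy.2])

/-- Admissibility of `c` gives the weak type inequality with constant `1 / c`. -/
theorem weak_of_adm {c : ℝ} (hc : 0 < c) (h : Admissible c) : WeakType (1 / c) := by
  intro f hf t ht
  by_contra hcon
  push Not at hcon
  obtain ⟨E, hEU, hE, hlt⟩ := (isOpen_level f t).exists_lt_isCompact hcon
  have hex : ∀ x : ℝ, ∃ r : ℝ, x ∈ E → (0 < r ∧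
      ENNReal.ofReal t * ENNReal.ofReal (2 * r) < ∫⁻ y in Ioo (x - r) (x + r), ‖f y‖ₑ) := by
    intro x
    by_cases hx : x ∈ E
    · have := hEU hx
      simp only [mem_ofPred_eq, M, lt_iSup_iff] at this
      obtain ⟨r, hr, hx⟩ := this
      have h2r : ENNReal.ofReal (2 * r) ≠ 0 := by simp; linarith
      rw [ENNReal.lt_div_iff_mul_lt (Or.inl h2r) (Or.inl ENNReal.ofReal_ne_top)] at hx
      exact ⟨r, fun _ => ⟨hr, hx⟩⟩
    · exact ⟨0, fun h => absurd h hx⟩
  choose δ hδ using hex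
  obtain ⟨s, hsE, hsc, hsd, hs⟩ := h E hE δ (fun x hx => (hδ x hx).1)
  have h1 : ENNReal.ofReal t * ∑' x : s, volume (I δ x) ≤ ∫⁻ y, ‖f y‖ₑ := by
    rw [← ENNReal.tsum_mul_left]
    calc ∑' x : s, ENNReal.ofReal t * volume (I δ x)
        ≤ ∑' x : s, ∫⁻ y in I δ x, ‖f y‖ₑ := by
          refine ENNReal.tsum_le_tsum fun x => ?_
          rw [volume_I]
          exact (hδ x (hsE x.2)).2.le
      _ = ∫⁻ y in ⋃ x ∈ s, I δ x, ‖f y‖ₑ := by
          rw [lintegral_biUnion (t := s) (s := I δ) hsc (fun _ _ => measurableSet_Ioo) hsd]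
      _ ≤ ∫⁻ y, ‖f y‖ₑ := setLIntegral_le_lintegral _ _
  have h2 : ENNReal.ofReal (t * c) * volume E ≤ ∫⁻ y, ‖f y‖ₑ := by
    rw [ENNReal.ofReal_mul ht.le, mul_assoc]
    exact (mul_le_mul_right hs _).trans h1
  have h3 : volume E ≤ ENNReal.ofReal (1 / c / t) * ∫⁻ y, ‖f y‖ₑ := by
    have h4 : ENNReal.ofReal (1 / c / t) * (ENNReal.ofReal (t * c) * volume E) = volume E := by
      rw [← mul_assoc, ← ENNReal.ofReal_mul (by positivity)]
      rw [show 1 / c / t * (t * c) = 1 by field_simp]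
      simp
    calc volume E = _ := h4.symm
      _ ≤ _ := mul_le_mul_right h2 _
  exact absurd hlt (not_lt.2 h3)

/-! ### Difference quotients of monotone functions -/

/-- the difference quotient -/
noncomputable def dq (V : ℝ → ℝ) (h : ℝ) (t : ℝ) : ℝ := (V (t + h) - V t) / h

lemma dq_nonneg {V : ℝ → ℝ} (hV : Monotone V) {h : ℝ} (hh : 0 < h) (t : ℝ) : 0 ≤ dq V h t :=
  div_nonneg (sub_nonneg.2 (hV (by linarith))) hh.le

lemma dq_measurable {V : ℝ → ℝ} (hV : Monotone V) (h : ℝ) : Measurable (dq V h) := by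
  unfold dq
  exact ((hV.measurable.comp (measurable_id.add_const h)).sub hV.measurable).div_const h

lemma dq_intervalIntegrable {V : ℝ → ℝ} (hV : Monotone V) (h a b : ℝ) :
    IntervalIntegrable (dq V h) volume a b := by
  unfold dq
  have h1 : IntervalIntegrable (fun t => V (t + h)) volume a b :=
    (Monotone.intervalIntegrable (u := fun t => V (t + h)) (fun x y hxy => hV (by linarith)))
  exact (h1.sub hV.intervalIntegrable).div_const h

lemma dq_integral {V : ℝ → ℝ} (hV : Monotone V) {h : ℝ} (a b : ℝ) :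
    ∫ t in a..b, dq V h t = ((∫ t in b..b + h, V t) - ∫ t in a..a + h, V t) / h := by
  have hi : ∀ x y, IntervalIntegrable V volume x y := fun x y => hV.intervalIntegrable
  have h1 : IntervalIntegrable (fun t => V (t + h)) volume a b :=
    (Monotone.intervalIntegrable (u := fun t => V (t + h)) (fun x y hxy => hV (by linarith)))
  unfold dq
  rw [intervalIntegral.integral_div, intervalIntegral.integral_sub h1 (hi _ _),
    intervalIntegral.integral_comp_add_right]
  congr 1
  have e1 := intervalIntegral.integral_add_adjacent_intervals (hi a (a + h)) (hi (a + h) (b + h))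
  have e2 := intervalIntegral.integral_add_adjacent_intervals (hi a b) (hi b (b + h))
  linarith

lemma dq_integral_ge {V : ℝ → ℝ} (hV : Monotone V) {h : ℝ} (hh : 0 < h) (a b : ℝ) :
    V b - V a ≤ ∫ t in (a - h)..b, dq V h t := by
  rw [dq_integral hV, le_div_iff₀ hh]
  have h1 : ∫ t in b..b + h, V b ≤ ∫ t in b..b + h, V t :=
    intervalIntegral.integral_mono_on (by linarith) (by simp) hV.intervalIntegrable
      (fun x hx => hV hx.1)
  have h2 : ∫ t in a - h..a - h + h, V t ≤ ∫ t in a - h..a - h + h, V a :=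
    intervalIntegral.integral_mono_on (by linarith) hV.intervalIntegrable (by simp)
      (fun x hx => hV (by linarith [hx.2]))
  simp only [intervalIntegral.integral_const, smul_eq_mul] at h1 h2
  nlinarith

lemma dq_integral_le {V : ℝ → ℝ} (hV : Monotone V) {h : ℝ} (hh : 0 < h) (a b : ℝ) :
    ∫ t in a..b, dq V h t ≤ V (b + h) - V a := by
  rw [dq_integral hV, div_le_iff₀ hh]
  have h1 : ∫ t in b..b + h, V t ≤ ∫ t in b..b + h, V (b + h) :=
    intervalIntegral.integral_mono_on (by linarith) hV.intervalIntegrable (by simp)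
      (fun x hx => hV hx.2)
  have h2 : ∫ t in a..a + h, V a ≤ ∫ t in a..a + h, V t :=
    intervalIntegral.integral_mono_on (by linarith) (by simp) hV.intervalIntegrable
      (fun x hx => hV hx.1)
  simp only [intervalIntegral.integral_const, smul_eq_mul] at h1 h2
  nlinarith

lemma lintegral_dq {V : ℝ → ℝ} (hV : Monotone V) {h : ℝ} (hh : 0 < h) {a b : ℝ} (hab : a ≤ b) :
    ∫⁻ t in Ioc a b, ‖dq V h t‖ₑ = ENNReal.ofReal (∫ t in a..b, dq V h t) := by
  rw [intervalIntegral.integral_of_le hab]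
  rw [ofReal_integral_eq_lintegral_ofReal ((dq_intervalIntegrable hV h a b).1)
    (Filter.Eventually.of_forall (fun t => dq_nonneg hV hh t))]
  refine lintegral_congr fun t => ?_
  rw [Real.enorm_eq_ofReal (dq_nonneg hV hh t)]

/-- total integral of the difference quotient -/
lemma lintegral_dq_le {V : ℝ → ℝ} (hV : Monotone V) {h : ℝ} (hh : 0 < h) {t₀ t₁ S : ℝ}
    (h01 : t₀ ≤ t₁) (h0 : ∀ t ≤ t₀, V t = 0) (h1 : ∀ t, t₁ ≤ t → V t = V t₁) (hS : V t₁ ≤ S) :
    ∫⁻ t, ‖dq V h t‖ₑ ≤ ENNReal.ofReal S := by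
  have hsupp : ∀ t, t ∉ Ioc (t₀ - h) t₁ → dq V h t = 0 := by
    intro t ht
    rw [mem_Ioc, not_and_or, not_lt, not_le] at ht
    rcases ht with ht | ht
    · rw [dq, h0 (t + h) (by linarith), h0 t (by linarith)]; simp
    · rw [dq, h1 (t + h) (by linarith), h1 t (by linarith)]; simp
  have e : ∫⁻ t, ‖dq V h t‖ₑ = ∫⁻ t in Ioc (t₀ - h) t₁, ‖dq V h t‖ₑ := by
    rw [← lintegral_indicator measurableSet_Ioc]
    refine lintegral_congr fun t => ?_
    by_cases ht : t ∈ Ioc (t₀ - h) t₁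
    · rw [indicator_of_mem ht]
    · rw [indicator_of_notMem ht, hsupp t ht]; simp
  rw [e, lintegral_dq hV hh (by linarith)]
  refine ENNReal.ofReal_le_ofReal ?_
  have := dq_integral_le hV hh (t₀ - h) t₁
  rw [h1 (t₁ + h) (by linarith), h0 (t₀ - h) (by linarith)] at this
  linarith

lemma dq_integrable {V : ℝ → ℝ} (hV : Monotone V) {h : ℝ} (hh : 0 < h) {t₀ t₁ S : ℝ}
    (h01 : t₀ ≤ t₁) (h0 : ∀ t ≤ t₀, V t = 0) (h1 : ∀ t, t₁ ≤ t → V t = V t₁) (hS : V t₁ ≤ S) :
    Integrable (dq V h) :=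
  ⟨(dq_measurable hV h).aestronglyMeasurable,
    lt_of_le_of_lt (lintegral_dq_le hV hh h01 h0 h1 hS) ENNReal.ofReal_lt_top⟩

/-! ### The packing function of a finite family -/

open Classical in
/-- The largest total length of a disjoint subfamily of `F` all of whose intervals end before `t`. -/
noncomputable def V (F : Finset ℝ) (δ : ℝ → ℝ) (t : ℝ) : ℝ :=
  (F.powerset.filter
    (fun J : Finset ℝ => (J : Set ℝ).PairwiseDisjoint (I δ) ∧ ∀ y ∈ J, y + δ y ≤ t)).sup'
    ⟨∅, by simp⟩ (fun J : Finset ℝ => ∑ y ∈ J, 2 * δ y)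

lemma V_mono (F : Finset ℝ) (δ : ℝ → ℝ) : Monotone (V F δ) := by
  classical
  intro s t hst
  unfold V
  refine Finset.sup'_mono _ ?_ _
  intro J hJ
  rw [Finset.mem_filter] at hJ ⊢
  exact ⟨hJ.1, hJ.2.1, fun y hy => (hJ.2.2 y hy).trans hst⟩

lemma V_ge {F : Finset ℝ} {δ : ℝ → ℝ} {t : ℝ} {J : Finset ℝ} (hJF : J ⊆ F)
    (hd : (J : Set ℝ).PairwiseDisjoint (I δ)) (hJ : ∀ y ∈ J, y + δ y ≤ t) :
    ∑ y ∈ J, 2 * δ y ≤ V F δ t := by
  classical
  unfold V
  exact Finset.le_sup' (fun J : Finset ℝ => ∑ y ∈ J, 2 * δ y)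
    (Finset.mem_filter.2 ⟨Finset.mem_powerset.2 hJF, hd, hJ⟩)

lemma V_exists (F : Finset ℝ) (δ : ℝ → ℝ) (t : ℝ) : ∃ J ⊆ F, (J : Set ℝ).PairwiseDisjoint (I δ) ∧
    (∀ y ∈ J, y + δ y ≤ t) ∧ V F δ t = ∑ y ∈ J, 2 * δ y := by
  classical
  unfold V
  obtain ⟨J, hJ, e⟩ := Finset.exists_mem_eq_sup' (s := F.powerset.filter (fun J : Finset ℝ =>
    (J : Set ℝ).PairwiseDisjoint (I δ) ∧ ∀ y ∈ J, y + δ y ≤ t)) ⟨∅, by simp⟩
    (fun J : Finset ℝ => ∑ y ∈ J, 2 * δ y)
  rw [Finset.mem_filter, Finset.mem_powerset] at hJ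
  exact ⟨J, hJ.1, hJ.2.1, hJ.2.2, e⟩

lemma V_step {F : Finset ℝ} {δ : ℝ → ℝ} {y : ℝ} (hy : y ∈ F) (hδ : 0 < δ y) :
    V F δ (y - δ y) + 2 * δ y ≤ V F δ (y + δ y) := by
  classical
  obtain ⟨J, hJF, hd, hJ, e⟩ := V_exists F δ (y - δ y)
  have hyJ : y ∉ J := fun h => by linarith [hJ y h]
  have := V_ge (F := F) (δ := δ) (t := y + δ y) (J := insert y J)
    (Finset.insert_subset hy hJF) ?_ ?_
  · rw [Finset.sum_insert hyJ] at this
    rw [e]; linarith
  · rw [Finset.coe_insert]
    refine hd.insert fun z hz _ => ?_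
    rw [Set.disjoint_left]
    intro w hw hw'
    have := hJ z hz
    simp only [I, mem_Ioo] at hw hw'
    linarith [hw.1, hw'.2]
  · intro z hz
    rw [Finset.mem_insert] at hz
    rcases hz with rfl | hz
    · exact le_rfl
    · linarith [hJ z hz]

/-- If every disjoint finite subfamily has total length at most `S` then the weak type inequality
bounds the measure of `E`. -/
theorem cover_bound {A : ℝ} (hA : 0 < A) (hW : WeakType A) {E : Set ℝ} (hE : IsCompact E)
    {δ : ℝ → ℝ} (hδ : ∀ x ∈ E, 0 < δ x) {S : ℝ} (hS0 : 0 ≤ S)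
    (hS : ∀ J : Finset ℝ, (J : Set ℝ) ⊆ E → (J : Set ℝ).PairwiseDisjoint (I δ) →
      ∑ y ∈ J, 2 * δ y ≤ S) :
    volume E ≤ ENNReal.ofReal (A * S) := by
  have key : ∀ η : ℝ, 0 < η → volume E ≤ ENNReal.ofReal (A * (1 + 3 * η) * S) := by
    intro η hη
    rcases E.eq_empty_or_nonempty with rfl | hne
    · simp
    -- finite subcover
    obtain ⟨F, hFE, hcov⟩ := hE.elim_nhds_subcover (fun y => Ioo (y - η * δ y) (y + η * δ y))
      (fun y hy => Ioo_mem_nhds (by nlinarith [mul_pos hη (hδ y hy)])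
        (by nlinarith [mul_pos hη (hδ y hy)]))
    have hFne : F.Nonempty := by
      by_contra hF
      rw [Finset.not_nonempty_iff_eq_empty] at hF
      subst hF
      obtain ⟨x, hx⟩ := hne
      simpa using hcov hx
    -- the step
    obtain ⟨y₀, hy₀, hmin⟩ := F.exists_min_image δ hFne
    set h := η * δ y₀ with hh
    have hh0 : 0 < h := mul_pos hη (hδ _ (hFE _ hy₀))
    set W := V F δ with hWdef
    have hWm : Monotone W := V_mono F δ
    obtain ⟨ya, hya, hamin⟩ := F.exists_min_image (fun y => y + δ y) hFne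
    obtain ⟨yb, hyb, hbmax⟩ := F.exists_max_image (fun y => y + δ y) hFne
    have hW0 : ∀ t ≤ ya + δ ya - 1, W t = 0 := by
      intro t ht
      obtain ⟨J, hJF, hd, hJ, e⟩ := V_exists F δ t
      have : J = ∅ := by
        rw [Finset.eq_empty_iff_forall_notMem]
        intro z hz
        have h1 := hJ z hz
        have h2 := hamin z (hJF hz)
        linarith
      rw [hWdef, e, this]; simp
    have hW1 : ∀ t, yb + δ yb ≤ t → W t = W (yb + δ yb) := by
      intro t ht
      refine le_antisymm ?_ (hWm ht)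
      obtain ⟨J, hJF, hd, hJ, e⟩ := V_exists F δ t
      rw [hWdef, e]
      exact V_ge hJF hd (fun z hz => hbmax z (hJF hz))
    have hWS : W (yb + δ yb) ≤ S := by
      obtain ⟨J, hJF, hd, hJ, e⟩ := V_exists F δ (yb + δ yb)
      rw [hWdef, e]
      exact hS J (fun z hz => hFE z (hJF hz)) hd
    have h01 : ya + δ ya - 1 ≤ yb + δ yb := by
      have := hamin yb hyb
      linarith
    have hint := dq_integrable hWm hh0 h01 hW0 hW1 hWS
    have htot := lintegral_dq_le hWm hh0 h01 hW0 hW1 hWS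
    have hsub : E ⊆ {x | ENNReal.ofReal (1 / (1 + 3 * η)) < M (dq W h) x} := by
      intro x hx
      obtain ⟨y, hy, hxy⟩ := mem_iUnion₂.1 (hcov hx)
      have hyE := hFE y hy
      have hδy := hδ y hyE
      have hhy : h ≤ η * δ y := mul_le_mul_of_nonneg_left (hmin y hy) hη.le
      set r := (1 + 2 * η) * δ y with hr
      have hr0 : 0 < r := by positivity
      rw [mem_ofPred_eq]
      refine lt_of_lt_of_le ?_ (le_iSup₂ (f := fun (r : ℝ) (_ : 0 < r) =>
        (∫⁻ z in Ioo (x - r) (x + r), ‖dq W h z‖ₑ) / ENNReal.ofReal (2 * r)) r hr0)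
      have h2r : ENNReal.ofReal (2 * r) ≠ 0 := by simp; linarith
      rw [ENNReal.lt_div_iff_mul_lt (Or.inl h2r) (Or.inl ENNReal.ofReal_ne_top)]
      have hsubset : Ioc (y - δ y - h) (y + δ y) ⊆ Ioo (x - r) (x + r) := by
        intro z hz
        rw [mem_Ioo] at hxy
        rw [mem_Ioc] at hz
        rw [mem_Ioo]
        constructor <;> nlinarith
      have h3 : ENNReal.ofReal (2 * δ y) ≤ ∫⁻ z in Ioo (x - r) (x + r), ‖dq W h z‖ₑ := by
        calc ENNReal.ofReal (2 * δ y)
            ≤ ENNReal.ofReal (∫ t in (y - δ y - h)..(y + δ y), dq W h t) := by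
              refine ENNReal.ofReal_le_ofReal ?_
              have e1 := dq_integral_ge hWm hh0 (y - δ y) (y + δ y)
              have e2 := V_step hy hδy
              rw [← hWdef] at e2
              linarith
          _ = ∫⁻ z in Ioc (y - δ y - h) (y + δ y), ‖dq W h z‖ₑ :=
              (lintegral_dq hWm hh0 (by linarith)).symm
          _ ≤ _ := lintegral_mono_set hsubset
      refine lt_of_lt_of_le ?_ h3
      rw [← ENNReal.ofReal_mul (by positivity)]
      refine (ENNReal.ofReal_lt_ofReal_iff (by positivity)).2 ?_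
      rw [hr, one_div, inv_mul_lt_iff₀ (by positivity)]
      nlinarith [mul_pos hη hδy]
    calc volume E ≤ volume {x | ENNReal.ofReal (1 / (1 + 3 * η)) < M (dq W h) x} :=
          measure_mono hsub
      _ ≤ ENNReal.ofReal (A / (1 / (1 + 3 * η))) * ∫⁻ y, ‖dq W h y‖ₑ :=
          hW _ hint _ (by positivity)
      _ ≤ ENNReal.ofReal (A / (1 / (1 + 3 * η))) * ENNReal.ofReal S := mul_le_mul_right htot _
      _ = ENNReal.ofReal (A * (1 + 3 * η) * S) := by
          rw [← ENNReal.ofReal_mul (by positivity)]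
          congr 1
          field_simp
  refine ENNReal.le_of_forall_pos_le_add ?_
  intro ε hε _
  have hAS : 0 ≤ A * S := mul_nonneg hA.le hS0
  have := key (ε / (3 * (A * S) + 1)) (by positivity)
  refine this.trans ?_
  rw [← ENNReal.ofReal_coe_nnreal, ← ENNReal.ofReal_add hAS (by positivity)]
  refine ENNReal.ofReal_le_ofReal ?_
  have h1 : A * (1 + 3 * ((ε : ℝ) / (3 * (A * S) + 1))) * S
      = A * S + (3 * (A * S)) / (3 * (A * S) + 1) * ε := by
    field_simp
  rw [h1]
  have h2 : (3 * (A * S)) / (3 * (A * S) + 1) ≤ 1 := by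
    rw [div_le_one (by positivity)]; linarith
  have h3 : (0:ℝ) ≤ ε := by positivity
  nlinarith

/-! ### The perturbation argument -/

lemma fin_tsum {δ : ℝ → ℝ} (J : Finset ℝ) (hJ : ∀ y ∈ J, 0 < δ y) :
    ∑' x : (J : Set ℝ), volume (I δ x) = ENNReal.ofReal (∑ y ∈ J, 2 * δ y) := by
  rw [ENNReal.ofReal_sum_of_nonneg (fun y hy => by linarith [hJ y hy])]
  rw [Finset.tsum_subtype' J (fun x => volume (I δ x))]
  exact Finset.sum_congr rfl fun y _ => volume_I δ y

/-- perturbed radii -/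
noncomputable def dl (δ : ℝ → ℝ) (α β ε t : ℝ) (x : ℝ) : ℝ :=
  if x ≤ β then δ x else if x ≤ β + ε / 2 then δ β + ε / 2 else t * δ ((x - β - ε) / t + α)

lemma dl_le {δ : ℝ → ℝ} {α β ε t x : ℝ} (h : x ≤ β) : dl δ α β ε t x = δ x := by
  simp [dl, h]

lemma dl_mid {δ : ℝ → ℝ} {α β ε t x : ℝ} (h : β < x) (h' : x ≤ β + ε / 2) :
    dl δ α β ε t x = δ β + ε / 2 := by
  simp [dl, h.not_ge, h']

lemma dl_gt {δ : ℝ → ℝ} {α β ε t x : ℝ} (hε : 0 < ε) (h : β + ε / 2 < x) :
    dl δ α β ε t x = t * δ ((x - β - ε) / t + α) := by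
  have : ¬ x ≤ β := by push Not; linarith
  simp [dl, this, h.not_ge]

lemma pert_bound {E : Set ℝ} {δ : ℝ → ℝ} (hδ : ∀ x ∈ E, 0 < δ x) {S α β ε t : ℝ}
    (hα : ∀ x ∈ E, α ≤ x) (hβ : ∀ x ∈ E, x ≤ β) (hβE : β ∈ E)
    (ht : 0 < t) (hε : 0 < ε) (hεS : ε = t * S) (hsmall : ε / 2 + t * (β - α) < δ β)
    (hS : ∀ J : Finset ℝ, (J : Set ℝ) ⊆ E → (J : Set ℝ).PairwiseDisjoint (I δ) →
      ∑ y ∈ J, 2 * δ y ≤ S)
    (J : Finset ℝ)
    (hJ : (J : Set ℝ) ⊆ E ∪ Icc β (β + ε / 2) ∪ (fun x => β + ε + t * (x - α)) '' E)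
    (hd : (J : Set ℝ).PairwiseDisjoint (I (dl δ α β ε t))) :
    ∑ y ∈ J, 2 * dl δ α β ε t y ≤ (1 + t) * S := by
  classical
  have hr : 0 < δ β := hδ β hβE
  have hlow : ∀ z ∈ J, z ≤ β → z ∈ E := by
    intro z hz hzβ
    rcases hJ hz with (h | h) | ⟨x, hx, rfl⟩
    · exact h
    · have : z = β := le_antisymm hzβ h.1
      rw [this]; exact hβE
    · simp only at hzβ
      nlinarith [mul_nonneg ht.le (sub_nonneg.2 (hα x hx))]
  have hhigh : ∀ z ∈ J, β + ε / 2 < z → ∃ x ∈ E, z = β + ε + t * (x - α) := by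
    intro z hz hzβ
    rcases hJ hz with (h | h) | ⟨x, hx, rfl⟩
    · have := hβ z h
      linarith
    · have := h.2
      linarith
    · exact ⟨x, hx, rfl⟩
  have hup : ∀ z ∈ J, z ≤ β + ε + t * (β - α) := by
    intro z hz
    rcases hJ hz with (h | h) | ⟨x, hx, rfl⟩
    · have := hβ z h
      nlinarith [mul_nonneg ht.le (sub_nonneg.2 (hα β hβE))]
    · have := h.2
      nlinarith [mul_nonneg ht.le (sub_nonneg.2 (hα β hβE))]
    · have := hβ x hx
      simp only
      nlinarith
  have hpos : ∀ z ∈ J, 0 < dl δ α β ε t z := by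
    intro z hz
    by_cases h1 : z ≤ β
    · rw [dl_le h1]; exact hδ z (hlow z hz h1)
    · push Not at h1
      by_cases h2 : z ≤ β + ε / 2
      · rw [dl_mid h1 h2]; linarith
      · push Not at h2
        rw [dl_gt hε h2]
        obtain ⟨x, hx, rfl⟩ := hhigh z hz h2
        have : (β + ε + t * (x - α) - β - ε) / t + α = x := by field_simp; ring
        rw [this]
        exact mul_pos ht (hδ x hx)
  set J1 := J.filter (fun z => z ≤ β) with hJ1
  set J2 := J.filter (fun z => ¬ z ≤ β) with hJ2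
  have hsplit : ∑ y ∈ J, 2 * dl δ α β ε t y
      = ∑ y ∈ J1, 2 * δ y + ∑ y ∈ J2, 2 * dl δ α β ε t y := by
    rw [← Finset.sum_filter_add_sum_filter_not J (fun z => z ≤ β)]
    congr 1
    refine Finset.sum_congr rfl fun z hz => ?_
    rw [dl_le (Finset.mem_filter.1 hz).2]
  have hJ1E : (J1 : Set ℝ) ⊆ E := by
    intro z hz
    have := Finset.mem_filter.1 hz
    exact hlow z this.1 this.2
  have hJ1d : (J1 : Set ℝ).PairwiseDisjoint (I δ) := by
    intro z hz w hw hzw
    have hz' := Finset.mem_filter.1 hz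
    have hw' := Finset.mem_filter.1 hw
    have := hd hz'.1 hw'.1 hzw
    simpa only [Function.onFun, I, dl_le hz'.2, dl_le hw'.2] using this
  rw [hsplit]
  by_cases hmid : ∃ x₀ ∈ J, β < x₀ ∧ x₀ ≤ β + ε / 2
  · obtain ⟨x₀, hx₀, h1, h2⟩ := hmid
    have hI : I (dl δ α β ε t) x₀ = Ioo (x₀ - (δ β + ε / 2)) (x₀ + (δ β + ε / 2)) := by
      rw [I, dl_mid h1 h2]
    have hJ2' : J2 = {x₀} := by
      rw [Finset.eq_singleton_iff_unique_mem]
      refine ⟨Finset.mem_filter.2 ⟨hx₀, not_le.2 h1⟩, ?_⟩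
      intro z hz
      by_contra hne
      have hz' := Finset.mem_filter.1 hz
      have hdis := hd hz'.1 hx₀ hne
      have hzz : z ∈ I (dl δ α β ε t) z := by
        rw [I, mem_Ioo]
        have := hpos z hz'.1
        constructor <;> linarith
      refine Set.disjoint_left.1 hdis hzz ?_
      rw [hI, mem_Ioo]
      have := hup z hz'.1
      have := not_le.1 hz'.2
      constructor <;> linarith
    have hβJ : β ∉ J := by
      intro hβJ
      have hdis := hd hβJ hx₀ (ne_of_lt h1)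
      have hzz : β ∈ I (dl δ α β ε t) β := by
        rw [I, mem_Ioo]
        have := hpos β hβJ
        constructor <;> linarith
      refine Set.disjoint_left.1 hdis hzz ?_
      rw [hI, mem_Ioo]
      constructor <;> linarith
    have hβJ1 : β ∉ J1 := fun h => hβJ (Finset.mem_filter.1 h).1
    have h3 := hS (insert β J1) ?_ ?_
    · rw [Finset.sum_insert hβJ1] at h3
      rw [hJ2', Finset.sum_singleton, dl_mid h1 h2]
      rw [hεS] at *
      linarith
    · rw [Finset.coe_insert]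
      exact Set.insert_subset hβE hJ1E
    · rw [Finset.coe_insert]
      refine hJ1d.insert fun z hz _ => ?_
      have hz' := Finset.mem_filter.1 hz
      have hdis := hd hz'.1 hx₀ (ne_of_lt (lt_of_le_of_lt hz'.2 h1))
      have e : I (dl δ α β ε t) z = I δ z := by rw [I, I, dl_le hz'.2]
      rw [Function.onFun, e] at hdis
      refine Disjoint.symm (hdis.mono_right ?_)
      rw [hI, I]
      exact Ioo_subset_Ioo (by linarith) (by linarith)
  · push Not at hmid
    have hJ2gt : ∀ z ∈ J2, β + ε / 2 < z := by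
      intro z hz
      have hz' := Finset.mem_filter.1 hz
      exact hmid z hz'.1 (not_le.1 hz'.2)
    set ψ : ℝ → ℝ := fun z => (z - β - ε) / t + α with hψ
    have hψinj : Function.Injective ψ := by
      intro a b hab
      simp only [hψ, add_left_inj] at hab
      rw [div_left_inj' ht.ne'] at hab
      linarith
    have h3 := hS (J2.image ψ) ?_ ?_
    · rw [Finset.sum_image (fun a _ b _ h => hψinj h)] at h3
      have h4 := hS J1 hJ1E hJ1d
      have h5 : ∑ y ∈ J2, 2 * dl δ α β ε t y = t * ∑ y ∈ J2, 2 * δ (ψ y) := by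
        rw [Finset.mul_sum]
        refine Finset.sum_congr rfl fun z hz => ?_
        rw [dl_gt hε (hJ2gt z hz)]
        ring
      rw [h5]
      nlinarith [mul_le_mul_of_nonneg_left h3 ht.le]
    · rw [Finset.coe_image]
      rintro _ ⟨z, hz, rfl⟩
      have hz' := Finset.mem_filter.1 hz
      obtain ⟨x, hx, rfl⟩ := hhigh z hz'.1 (hJ2gt z hz)
      have : ψ (β + ε + t * (x - α)) = x := by simp only [hψ]; field_simp; ring
      rw [this]; exact hx
    · rw [Finset.coe_image]
      rintro _ ⟨z, hz, rfl⟩ _ ⟨w, hw, rfl⟩ hzw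
      have hne : z ≠ w := fun h => hzw (by rw [h])
      have hz' := Finset.mem_filter.1 hz
      have hw' := Finset.mem_filter.1 hw
      have hdis := hd hz'.1 hw'.1 hne
      rw [Function.onFun, Set.disjoint_left] at hdis ⊢
      intro u hu hu'
      refine hdis (a := β + ε + t * (u - α)) ?_ ?_
      · rw [I, dl_gt hε (hJ2gt z hz), mem_Ioo]
        rw [I, mem_Ioo] at hu
        have e : z = β + ε + t * (ψ z - α) := by simp only [hψ]; field_simp; ring
        constructor
        · nlinarith [mul_lt_mul_of_pos_left hu.1 ht]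
        · nlinarith [mul_lt_mul_of_pos_left hu.2 ht]
      · rw [I, dl_gt hε (hJ2gt w hw), mem_Ioo]
        rw [I, mem_Ioo] at hu'
        have e : w = β + ε + t * (ψ w - α) := by simp only [hψ]; field_simp; ring
        constructor
        · nlinarith [mul_lt_mul_of_pos_left hu'.1 ht]
        · nlinarith [mul_lt_mul_of_pos_left hu'.2 ht]

/-- The weak type inequality with constant `1 / c` makes `c` itself admissible. -/
theorem adm_of_weak {c : ℝ} (hc : 0 < c) (hW : WeakType (1 / c)) : Admissible c := by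
  classical
  intro E hE δ hδ
  by_contra hcon
  push Not at hcon
  obtain ⟨e, he, hvol⟩ : ∃ e : ℝ, 0 ≤ e ∧ volume E = ENNReal.ofReal e :=
    ⟨(volume E).toReal, ENNReal.toReal_nonneg, (ENNReal.ofReal_toReal hE.measure_lt_top.ne).symm⟩
  have hlt : ∀ J : Finset ℝ, (J : Set ℝ) ⊆ E → (J : Set ℝ).PairwiseDisjoint (I δ) →
      ∑ y ∈ J, 2 * δ y < c * e := by
    intro J hJE hJd
    have h1 := hcon (J : Set ℝ) hJE J.countable_toSet hJd
    rw [fin_tsum J (fun y hy => hδ y (hJE hy)), hvol, ← ENNReal.ofReal_mul hc.le] at h1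
    exact (ENNReal.ofReal_lt_ofReal_iff_of_nonneg
      (Finset.sum_nonneg fun y hy => by linarith [hδ y (hJE hy)])).1 h1
  have hce : 0 < c * e := by simpa using hlt ∅ (by simp) (by simp)
  have he0 : 0 < e := (mul_pos_iff_of_pos_left hc).1 hce
  set T : Set ℝ := {σ | ∃ J : Finset ℝ, (J : Set ℝ) ⊆ E ∧ (J : Set ℝ).PairwiseDisjoint (I δ) ∧
    σ = ∑ y ∈ J, 2 * δ y} with hT
  have hTne : T.Nonempty := ⟨0, ∅, by simp, by simp, by simp⟩
  have hTbdd : BddAbove T := ⟨c * e, by rintro _ ⟨J, h1, h2, rfl⟩; exact (hlt J h1 h2).le⟩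
  set S := sSup T with hSdef
  have hS : ∀ J : Finset ℝ, (J : Set ℝ) ⊆ E → (J : Set ℝ).PairwiseDisjoint (I δ) →
      ∑ y ∈ J, 2 * δ y ≤ S := fun J h1 h2 => le_csSup hTbdd ⟨J, h1, h2, rfl⟩
  have hS0 : 0 ≤ S := by simpa using hS ∅ (by simp) (by simp)
  have hSle : S ≤ c * e := csSup_le hTne (by rintro _ ⟨J, h1, h2, rfl⟩; exact (hlt J h1 h2).le)
  have hSge : c * e ≤ S := by
    have := cover_bound (by positivity) hW hE hδ hS0 hS
    rw [hvol, ENNReal.ofReal_le_ofReal_iff (by positivity), one_div, inv_mul_eq_div,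
      le_div_iff₀ hc] at this
    linarith
  have hSe : S = c * e := le_antisymm hSle hSge
  have hne : E.Nonempty := by
    by_contra h
    rw [Set.not_nonempty_iff_eq_empty] at h
    subst h
    simp only [measure_empty] at hvol
    have := ENNReal.ofReal_pos.2 he0
    rw [← hvol] at this
    exact lt_irrefl _ this
  set β := sSup E with hβdef
  set α := sInf E with hαdef
  have hβE : β ∈ E := hE.sSup_mem hne
  have hβ : ∀ x ∈ E, x ≤ β := fun x hx => le_csSup hE.bddAbove hx
  have hα : ∀ x ∈ E, α ≤ x := fun x hx => csInf_le hE.bddBelow hx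
  have hr : 0 < δ β := hδ β hβE
  have hαβ : α ≤ β := hα β hβE
  have hSpos : 0 < S := by rw [hSe]; exact hce
  set D := S + 2 * (β - α) + 2 * δ β with hD
  have hDpos : 0 < D := by linarith
  set t := δ β / D with ht
  have ht0 : 0 < t := div_pos hr hDpos
  set ε := t * S with hε
  have hε0 : 0 < ε := mul_pos ht0 hSpos
  have hsmall : ε / 2 + t * (β - α) < δ β := by
    have h1 : t * D = δ β := by rw [ht]; field_simp
    have h2 : t * D = ε + 2 * (t * (β - α)) + 2 * (t * δ β) := by rw [hD, hε]; ring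
    have h3 : 0 ≤ t * (β - α) := mul_nonneg ht0.le (by linarith)
    have h4 : 0 < t * δ β := mul_pos ht0 hr
    linarith
  set φ : ℝ → ℝ := fun x => β + ε + t * (x - α) with hφ
  set E' := E ∪ Icc β (β + ε / 2) ∪ φ '' E with hE'
  have hφc : Continuous φ := by fun_prop
  have hE'c : IsCompact E' := (hE.union isCompact_Icc).union (hE.image hφc)
  have hlowφ : ∀ x ∈ E, β + ε ≤ φ x := by
    intro x hx
    have := mul_nonneg ht0.le (sub_nonneg.2 (hα x hx))
    simp only [hφ]; linarith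
  have hpos' : ∀ x ∈ E', 0 < dl δ α β ε t x := by
    rintro x ((hx | hx) | ⟨z, hz, rfl⟩)
    · rw [dl_le (hβ x hx)]; exact hδ x hx
    · rcases eq_or_lt_of_le hx.1 with h | h
      · rw [← h, dl_le le_rfl]; exact hr
      · rw [dl_mid h hx.2]; linarith
    · have := hlowφ z hz
      rw [dl_gt hε0 (by linarith)]
      have e : (φ z - β - ε) / t + α = z := by simp only [hφ]; field_simp; ring
      rw [e]; exact mul_pos ht0 (hδ z hz)
  have hb := cover_bound (A := 1 / c) (by positivity) hW hE'c hpos'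
    (S := (1 + t) * S) (by positivity)
    (fun J h1 h2 => pert_bound hδ hα hβ hβE ht0 hε0 hε hsmall hS J h1 h2)
  -- measure of `E'`
  have hm1 : volume (φ '' E) = ENNReal.ofReal (t * e) := by
    have : φ '' E = (fun x => (β + ε - t * α) + x) '' ((fun x => t * x) '' E) := by
      rw [Set.image_image]
      refine Set.image_congr fun x _ => ?_
      simp only [hφ]; ring
    rw [this, Set.image_add_left, measure_preimage_add]
    have h2 : (fun x => t * x) '' E = t • E := rfl
    rw [h2, Measure.addHaar_smul, hvol]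
    simp only [Module.finrank_self, pow_one, abs_of_pos ht0]
    rw [← ENNReal.ofReal_mul ht0.le]
  have hm2 : ENNReal.ofReal ((1 + t) * e + ε / 2) ≤ volume E' := by
    have hsub : E ∪ (Ioc β (β + ε / 2) ∪ φ '' E) ⊆ E' := by
      rw [hE', Set.union_assoc]
      exact Set.union_subset_union_right _ (Set.union_subset_union_left _ Ioc_subset_Icc_self)
    refine le_trans ?_ (measure_mono hsub)
    have hd1 : Disjoint (Ioc β (β + ε / 2)) (φ '' E) := by
      rw [Set.disjoint_left]
      rintro x hx ⟨z, hz, rfl⟩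
      have := hlowφ z hz
      linarith [hx.2]
    have hd2 : Disjoint E (Ioc β (β + ε / 2) ∪ φ '' E) := by
      rw [Set.disjoint_left]
      rintro x hx (h | ⟨z, hz, rfl⟩)
      · linarith [h.1, hβ x hx]
      · have := hlowφ z hz
        linarith [hβ _ hx]
    rw [measure_union' hd2 hE.measurableSet, measure_union' hd1 measurableSet_Ioc, hm1, hvol,
      Real.volume_Ioc, ← ENNReal.ofReal_add (by linarith) (mul_nonneg ht0.le he),
      ← ENNReal.ofReal_add he (by nlinarith [mul_nonneg ht0.le he])]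
    refine ENNReal.ofReal_le_ofReal ?_
    linarith
  have h5 := hm2.trans hb
  have hnn : 0 ≤ 1 / c * ((1 + t) * S) := by
    have : 0 < 1 / c := by positivity
    have : 0 < 1 + t := by linarith
    positivity
  rw [ENNReal.ofReal_le_ofReal_iff hnn, hSe] at h5
  have h6 : 1 / c * ((1 + t) * (c * e)) = (1 + t) * e := by field_simp
  rw [h6] at h5
  linarith

/-- `c > 0` is admissible if and only if the weak type (1,1) inequality for the centred maximal
function on the line holds with constant `1 / c`. -/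
theorem adm_iff_weak {c : ℝ} (hc : 0 < c) : Admissible c ↔ WeakType (1 / c) :=
  ⟨weak_of_adm hc, adm_of_weak hc⟩

end Pool.Agent.H796R2.CI
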