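import Pool.Agent.H796R2.CI

/-!
# Lower bound for the weak type constant: distribution functions
-/

open MeasureTheory Set
open scoped ENNReal Pointwise

namespace Pool.Agent.H796R2.CI

/-- The set of midpoints covered by a distribution function `F`: `x` is covered if some interval
`[u, v]` carries mass `F v - F u` larger than twice the distances of `x` to its endpoints. -/
def EF (F : ℝ → ℝ) : Set ℝ :=
  {x | ∃ u v, u ≤ v ∧ 2 * (x - u) < F v - F u ∧ 2 * (v - x) < F v - F u}

lemma EF_mono {F G : ℝ → ℝ} (h : ∀ u v, u ≤ v → F v - F u ≤ G v - G u) : EF F ⊆ EF G := by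
  rintro x ⟨u, v, huv, h1, h2⟩
  exact ⟨u, v, huv, h1.trans_le (h u v huv), h2.trans_le (h u v huv)⟩

/-- The weak type inequality bounds the measure of the covered set. -/
theorem EF_bound {A : ℝ} (hA : 0 < A) (hW : WeakType A) {F : ℝ → ℝ} (hF : Monotone F)
    {t₀ t₁ S : ℝ} (h01 : t₀ ≤ t₁) (h0 : ∀ t ≤ t₀, F t = 0) (h1 : ∀ t, t₁ ≤ t → F t = S) :
    volume (EF F) ≤ ENNReal.ofReal (A * S) := by
  have hSe : F t₁ = S := h1 t₁ le_rfl
  have h1' : ∀ t, t₁ ≤ t → F t = F t₁ := fun t ht => by rw [h1 t ht, hSe]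
  set U : ℕ → Set ℝ := fun n => {x | ENNReal.ofReal 1 < M (dq F (1 / ((n : ℝ) + 1))) x} with hU
  have hUb : ∀ n, volume (U n) ≤ ENNReal.ofReal (A * S) := by
    intro n
    have hn : 0 < 1 / ((n : ℝ) + 1) := Nat.one_div_pos_of_nat
    have hint := dq_integrable hF hn h01 h0 h1' hSe.le
    have htot := lintegral_dq_le hF hn h01 h0 h1' hSe.le
    calc volume (U n) ≤ ENNReal.ofReal (A / 1) * ∫⁻ y, ‖dq F (1 / ((n : ℝ) + 1)) y‖ₑ :=
          hW _ hint 1 one_pos
      _ ≤ ENNReal.ofReal (A / 1) * ENNReal.ofReal S := mul_le_mul_right htot _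
      _ = ENNReal.ofReal (A * S) := by rw [← ENNReal.ofReal_mul (by positivity)]; simp
  have hsub : EF F ⊆ ⋃ n, ⋂ k, U (n + k) := by
    rintro x ⟨u, v, huv, hu, hv⟩
    set Δ := F v - F u with hΔ
    obtain ⟨r, hr1, hr2⟩ := exists_between (show max (max (x - u) (v - x)) 0 < Δ / 2 by
      refine max_lt (max_lt (by linarith) (by linarith)) ?_
      by_contra hcon
      push Not at hcon
      linarith)
    rw [max_lt_iff, max_lt_iff] at hr1
    obtain ⟨⟨hxu, hvx⟩, hr0⟩ := hr1
    obtain ⟨n, hn⟩ := exists_nat_one_div_lt (show 0 < Δ / 2 - r by linarith)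
    rw [mem_iUnion]
    refine ⟨n, mem_iInter.2 fun k => ?_⟩
    set h := 1 / (((n + k : ℕ) : ℝ) + 1) with hh
    have hh0 : 0 < h := Nat.one_div_pos_of_nat
    have hhn : h ≤ 1 / ((n : ℝ) + 1) := Nat.one_div_le_one_div (Nat.le_add_right n k)
    have hhlt : h < Δ / 2 - r := hhn.trans_lt hn
    show ENNReal.ofReal 1 < M (dq F h) x
    refine lt_of_lt_of_le ?_ (le_iSup₂ (f := fun (r : ℝ) (_ : 0 < r) =>
      (∫⁻ z in Ioo (x - r) (x + r), ‖dq F h z‖ₑ) / ENNReal.ofReal (2 * r)) (r + h) (by linarith))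
    have h2r : ENNReal.ofReal (2 * (r + h)) ≠ 0 := by simp; linarith
    rw [ENNReal.lt_div_iff_mul_lt (Or.inl h2r) (Or.inl ENNReal.ofReal_ne_top),
      ← ENNReal.ofReal_mul zero_le_one, one_mul]
    calc ENNReal.ofReal (2 * (r + h)) < ENNReal.ofReal Δ :=
          (ENNReal.ofReal_lt_ofReal_iff (by linarith)).2 (by linarith)
      _ ≤ ENNReal.ofReal (∫ t in (u - h)..v, dq F h t) :=
          ENNReal.ofReal_le_ofReal (dq_integral_ge hF hh0 u v)
      _ = ∫⁻ z in Ioc (u - h) v, ‖dq F h z‖ₑ := (lintegral_dq hF hh0 (by linarith)).symm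
      _ ≤ ∫⁻ z in Ioo (x - (r + h)) (x + (r + h)), ‖dq F h z‖ₑ := by
          refine lintegral_mono_set ?_
          intro z hz
          exact ⟨by linarith [hz.1], by linarith [hz.2]⟩
  refine (measure_mono hsub).trans ?_
  have hmono : Monotone (fun n => ⋂ k, U (n + k)) := by
    intro m n hmn x hx
    rw [mem_iInter] at hx ⊢
    intro k
    obtain ⟨j, rfl⟩ := Nat.exists_eq_add_of_le hmn
    rw [add_assoc]
    exact hx (j + k)
  rw [hmono.measure_iUnion]
  refine iSup_le fun n => ?_
  exact (measure_mono (iInter_subset _ 0)).trans (hUb _)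

/-! ### Transformations -/

lemma EF_affine {F : ℝ → ℝ} {a p : ℝ} (ha : 0 < a) {x : ℝ} :
    x ∈ EF (fun t => a * F ((t - p) / a)) ↔ (x - p) / a ∈ EF F := by
  constructor
  · rintro ⟨u, v, huv, h1, h2⟩
    refine ⟨(u - p) / a, (v - p) / a, by gcongr, ?_, ?_⟩
    · have : 2 * ((x - p) / a - (u - p) / a) = 2 * (x - u) / a := by ring
      rw [this, div_lt_iff₀ ha]
      simp only at h1
      linarith
    · have : 2 * ((v - p) / a - (x - p) / a) = 2 * (v - x) / a := by ring
      rw [this, div_lt_iff₀ ha]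
      simp only at h2
      linarith
  · rintro ⟨u, v, huv, h1, h2⟩
    refine ⟨p + a * u, p + a * v, by nlinarith, ?_, ?_⟩
    · have e1 : (p + a * u - p) / a = u := by field_simp; ring
      have e2 : (p + a * v - p) / a = v := by field_simp; ring
      simp only [e1, e2]
      have e3 : x = p + a * ((x - p) / a) := by field_simp; ring
      nlinarith
    · have e1 : (p + a * u - p) / a = u := by field_simp; ring
      have e2 : (p + a * v - p) / a = v := by field_simp; ring
      simp only [e1, e2]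
      have e3 : x = p + a * ((x - p) / a) := by field_simp; ring
      nlinarith

lemma EF_refl {F : ℝ → ℝ} {c L : ℝ} {x : ℝ} :
    x ∈ EF (fun t => c - F (L - t)) ↔ L - x ∈ EF F := by
  constructor
  · rintro ⟨u, v, huv, h1, h2⟩
    refine ⟨L - v, L - u, by linarith, ?_, ?_⟩
    · simp only at h1 h2
      linarith
    · simp only at h1 h2
      linarith
  · rintro ⟨u, v, huv, h1, h2⟩
    refine ⟨L - v, L - u, by linarith, ?_, ?_⟩ <;>
    · simp only [sub_sub_cancel]
      linarith

lemma null_affine {N : Set ℝ} (hN : volume N = 0) {a p : ℝ} (ha : 0 < a) :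
    volume {x : ℝ | (x - p) / a ∈ N} = 0 := by
  have : {x : ℝ | (x - p) / a ∈ N} ⊆ (fun y => a * y + p) '' N := by
    intro x hx
    exact ⟨(x - p) / a, hx, by field_simp; ring⟩
  refine measure_mono_null this ?_
  have h2 : (fun y => a * y + p) '' N = (fun y => p + y) '' (a • N) := by
    have : a • N = (fun y => a * y) '' N := rfl
    rw [this, Set.image_image]
    refine Set.image_congr fun y _ => ?_
    ring
  rw [h2, Set.image_add_left, measure_preimage_add, Measure.addHaar_smul, hN, mul_zero]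

lemma null_refl {N : Set ℝ} (hN : volume N = 0) {L : ℝ} : volume {x : ℝ | L - x ∈ N} = 0 := by
  have := (Measure.measurePreserving_sub_left (volume : Measure ℝ) L).quasiMeasurePreserving.preimage_null hN
  exact this

/-- the step function -/
noncomputable def stp (t : ℝ) : ℝ := if 0 ≤ t then 1 else 0

lemma stp_nonneg (t : ℝ) : 0 ≤ stp t := by unfold stp; split_ifs <;> norm_num
lemma stp_le (t : ℝ) : stp t ≤ 1 := by unfold stp; split_ifs <;> norm_num
lemma stp_of_nonneg {t : ℝ} (h : 0 ≤ t) : stp t = 1 := by simp [stp, h]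
lemma stp_of_neg {t : ℝ} (h : t < 0) : stp t = 0 := by simp [stp, not_le.2 h]
lemma stp_mono : Monotone stp := by
  intro s t h
  rcases lt_or_ge s 0 with h1 | h1
  · rw [stp_of_neg h1]; exact stp_nonneg t
  · rw [stp_of_nonneg h1, stp_of_nonneg (h1.trans h)]

/-- A unit mass distribution function on `[0, ρ]` covering almost all of `(0, ρ)`. -/
structure Q (ρ : ℝ) (F : ℝ → ℝ) : Prop where
  mono : Monotone F
  zero : ∀ t ≤ 0, F t = 0
  one : ∀ t, ρ ≤ t → F t = 1
  cov : volume (Ioo 0 ρ \ EF F) = 0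

lemma Q.nonneg {ρ : ℝ} {F : ℝ → ℝ} (h : Q ρ F) (t : ℝ) : 0 ≤ F t := by
  rcases le_total t 0 with h1 | h1
  · rw [h.zero t h1]
  · rw [← h.zero 0 le_rfl]; exact h.mono h1

lemma Q.le_one {ρ : ℝ} {F : ℝ → ℝ} (h : Q ρ F) (t : ℝ) : F t ≤ 1 := by
  rcases le_total t ρ with h1 | h1
  · rw [← h.one ρ le_rfl]; exact h.mono h1
  · rw [h.one t h1]

lemma Q_one : Q 1 (fun t => stp (t - 1 / 2)) where
  mono := fun s t h => stp_mono (by linarith)
  zero := fun t ht => stp_of_neg (by linarith)
  one := fun t ht => stp_of_nonneg (by linarith)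
  cov := by
    have : Ioo (0:ℝ) 1 \ EF (fun t => stp (t - 1 / 2)) = ∅ := by
      rw [Set.sdiff_eq_empty]
      intro x hx
      have h1 : stp ((1 + x) / 2 - 1 / 2) = 1 := stp_of_nonneg (by linarith [hx.1])
      have h2 : stp (x / 2 - 1 / 2) = 0 := stp_of_neg (by linarith [hx.2])
      refine ⟨x / 2, (1 + x) / 2, by linarith, ?_, ?_⟩
      · simp only [h1, h2]; linarith [hx.2]
      · simp only [h1, h2]; linarith [hx.1]
    rw [this, measure_empty]

/-- half period lemma -/
theorem half {ρ η a b m d e Y : ℝ} {F : ℝ → ℝ} (hρ : 1 ≤ ρ) (hF : Q ρ F)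
    (hnear : ∀ t, 0 ≤ t → t ≤ ρ → |F t - t / ρ| ≤ η) {G : ℝ → ℝ}
    (ha : 0 < a) (hb : 0 < b) (hη : 0 ≤ η)
    (G1 : ∀ u v, u < 0 → 0 < v → 1 + b * F ((v - d) / b) + a * F ((v - e) / a) ≤ G v - G u)
    (G2 : ∀ u v, u < 0 → Y < v → 1 + b + a + m ≤ G v - G u)
    (G3 : ∀ u v, u < Y → Y < v → m + a * (1 - F ((u - e) / a)) ≤ G v - G u)
    (G4 : ∀ u v, u ≤ v → b * F ((v - d) / b) - b * F ((u - d) / b) ≤ G v - G u)
    (G5 : ∀ u v, u ≤ v → a * F ((v - e) / a) - a * F ((u - e) / a) ≤ G v - G u)
    (c0 : d < 1) (c1 : d < (1 + b + a) / 2) (c2 : d + ρ * b < 1 + b - b * η)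
    (c3 : e + ρ * a < 1 + b + a - a * η) (c3' : e ≤ 1 + b)
    (c4 : Y - (1 + b + a + m) / 2 < d + ρ * b)
    (c5 : e < (1 + b + a + m) / 2) (c6 : Y - (e + ρ * a) < (m + a) / 2)
    (c6' : Y - e < m + a - a * η) (c7 : Y - (e + ρ * a) < m) :
    volume (Ioo 0 Y \ EF G) = 0 := by
  have hρ0 : 0 < ρ := by linarith
  -- the bound for the heavy atom at 0
  have hφ : ∀ w, 0 < w → w < 1 + b + a → w < 1 + b * F ((w - d) / b) + a * F ((w - e) / a) := by
    intro w hw0 hw
    have nb : 0 ≤ b * F ((w - d) / b) := mul_nonneg hb.le (hF.nonneg _)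
    have na : 0 ≤ a * F ((w - e) / a) := mul_nonneg ha.le (hF.nonneg _)
    rcases lt_or_ge w 1 with h1 | h1
    · linarith
    rcases lt_or_ge w (1 + b) with h2 | h2
    · have key : w - 1 < b * F ((w - d) / b) := by
        rcases le_total (d + ρ * b) w with h3 | h3
        · rw [hF.one _ (by rw [le_div_iff₀ hb]; linarith)]; linarith
        · have h4 := (abs_le.1 (hnear ((w - d) / b) (div_nonneg (by linarith) hb.le)
            (by rw [div_le_iff₀ hb]; linarith))).1
          have h5 : b * ((w - d) / b / ρ) = (w - d) / ρ := by field_simp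
          have h6 : b * ((w - d) / b / ρ - η) ≤ b * F ((w - d) / b) :=
            mul_le_mul_of_nonneg_left (by linarith) hb.le
          rw [mul_sub, h5] at h6
          have h7 : w - 1 < (w - d) / ρ - b * η := by
            have h8 : (w - d) / ρ = (w - d) - (w - d) * (1 - 1 / ρ) := by field_simp; ring
            have h9 : (w - d) * (1 - 1 / ρ) ≤ ρ * b * (1 - 1 / ρ) :=
              mul_le_mul_of_nonneg_right (by linarith)
                (by rw [sub_nonneg, div_le_one hρ0]; exact hρ)
            have h10 : ρ * b * (1 - 1 / ρ) = ρ * b - b := by field_simp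
            rw [h8]; linarith
          linarith
      linarith
    · have hFb : F ((w - d) / b) = 1 := by
        apply hF.one; rw [le_div_iff₀ hb]
        have := mul_nonneg hb.le hη
        linarith
      have key : w - 1 - b < a * F ((w - e) / a) := by
        rcases le_total (e + ρ * a) w with h3 | h3
        · rw [hF.one _ (by rw [le_div_iff₀ ha]; linarith)]; linarith
        · have h4 := (abs_le.1 (hnear ((w - e) / a) (div_nonneg (by linarith) ha.le)
            (by rw [div_le_iff₀ ha]; linarith))).1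
          have h5 : a * ((w - e) / a / ρ) = (w - e) / ρ := by field_simp
          have h6 : a * ((w - e) / a / ρ - η) ≤ a * F ((w - e) / a) :=
            mul_le_mul_of_nonneg_left (by linarith) ha.le
          rw [mul_sub, h5] at h6
          have h7 : w - 1 - b < (w - e) / ρ - a * η := by
            have h8 : (w - e) / ρ = (w - e) - (w - e) * (1 - 1 / ρ) := by field_simp; ring
            have h9 : (w - e) * (1 - 1 / ρ) ≤ ρ * a * (1 - 1 / ρ) :=
              mul_le_mul_of_nonneg_right (by linarith)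
                (by rw [sub_nonneg, div_le_one hρ0]; exact hρ)
            have h10 : ρ * a * (1 - 1 / ρ) = ρ * a - a := by field_simp
            rw [h8]; linarith
          linarith
      rw [hFb]; linarith
  have hψ : ∀ w, 0 < w → w < m + a → w < m + a * (1 - F ((Y - w - e) / a)) := by
    intro w hw0 hw
    have na : 0 ≤ a * (1 - F ((Y - w - e) / a)) :=
      mul_nonneg ha.le (sub_nonneg.2 (hF.le_one _))
    rcases lt_or_ge w m with h1 | h1
    · linarith
    rcases le_total (Y - w) e with h2 | h2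
    · rw [hF.zero _ (div_nonpos_of_nonpos_of_nonneg (by linarith) ha.le)]; linarith
    · have h3 : Y - w ≤ e + ρ * a := by linarith
      have h4 := (abs_le.1 (hnear ((Y - w - e) / a) (div_nonneg (by linarith) ha.le)
            (by rw [div_le_iff₀ ha]; linarith))).2
      have h5 : a * ((Y - w - e) / a / ρ) = (Y - w - e) / ρ := by field_simp
      have h6 : a * F ((Y - w - e) / a) ≤ a * ((Y - w - e) / a / ρ + η) :=
        mul_le_mul_of_nonneg_left (by linarith) ha.le
      rw [mul_add, h5] at h6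
      have h7 : w < m + a - a * η - (Y - w - e) / ρ := by
        have h8 : (Y - w - e) / ρ ≤ Y - w - e := div_le_self (by linarith) hρ
        linarith
      linarith
  -- the covered regions
  have hA : ∀ x, 0 < x → x < (1 + b + a) / 2 → x ∈ EF G := by
    intro x hx0 hx
    have h1 := hφ (2 * x) (by linarith) (by linarith)
    set D := 1 + b * F ((2 * x - d) / b) + a * F ((2 * x - e) / a) with hD
    refine ⟨-((D - 2 * x) / 4), 2 * x, by linarith, ?_, ?_⟩
    · have := G1 (-((D - 2 * x) / 4)) (2 * x) (by linarith) (by linarith)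
      linarith
    · have := G1 (-((D - 2 * x) / 4)) (2 * x) (by linarith) (by linarith)
      linarith
  have hE : ∀ x, 0 < x → d + ρ * b ≤ x → x ≤ e → x < Y → x ∈ EF G := by
    intro x hx0 h1 h2 h2'
    set s := min ((1 + b + a + m) / 2 - x) ((1 + b + a + m) / 2 - (Y - x)) with hs
    have hs0 : 0 < s := lt_min (by linarith) (by linarith)
    have hs1 : s ≤ (1 + b + a + m) / 2 - x := min_le_left _ _
    have hs2 : s ≤ (1 + b + a + m) / 2 - (Y - x) := min_le_right _ _
    have h3 := G2 (-(s / 2)) (Y + s / 2) (by linarith) (by linarith)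
    exact ⟨-(s / 2), Y + s / 2, by linarith, by linarith, by linarith⟩
  have hH : ∀ x, e + ρ * a ≤ x → x < Y → x ∈ EF G := by
    intro x h1 h2
    have h3 := hψ (2 * (Y - x)) (by linarith) (by linarith)
    set D := m + a * (1 - F ((Y - 2 * (Y - x) - e) / a)) with hD
    have h4 := G3 (Y - 2 * (Y - x)) (Y + (D - 2 * (Y - x)) / 4) (by linarith) (by linarith)
    exact ⟨Y - 2 * (Y - x), Y + (D - 2 * (Y - x)) / 4, by linarith, by linarith, by linarith⟩
  have hsub : Ioo 0 Y \ EF G ⊆ {x | (x - d) / b ∈ Ioo 0 ρ \ EF F} ∪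
      {x | (x - e) / a ∈ Ioo 0 ρ \ EF F} := by
    rintro x ⟨⟨hx0, hxY⟩, hx⟩
    have h1 : (1 + b + a) / 2 ≤ x := by
      by_contra h; push Not at h; exact hx (hA x hx0 h)
    have h2 : x < e + ρ * a := by
      by_contra h; push Not at h; exact hx (hH x h hxY)
    rcases lt_or_ge x (d + ρ * b) with h3 | h3
    · left
      refine ⟨⟨div_pos (by linarith) hb, by rw [div_lt_iff₀ hb]; linarith⟩, ?_⟩
      intro h4
      exact hx (EF_mono (F := fun t => b * F ((t - d) / b)) G4 ((EF_affine hb).2 h4))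
    · rcases le_or_gt x e with h4 | h4
      · exact absurd (hE x hx0 h3 h4 hxY) hx
      · right
        refine ⟨⟨div_pos (by linarith) ha, by rw [div_lt_iff₀ ha]; linarith⟩, ?_⟩
        intro h5
        exact hx (EF_mono (F := fun t => a * F ((t - e) / a)) G5 ((EF_affine ha).2 h5))
  exact measure_mono_null hsub (measure_union_null (null_affine hF.cov hb)
    (null_affine hF.cov ha))

/-! ### The periodic structure -/

/-- the part between two heavy atoms -/
noncomputable def Tt (a b m d e Y : ℝ) (F : ℝ → ℝ) (t : ℝ) : ℝ :=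
  b * F ((t - d) / b) + a * F ((t - e) / a) + m * stp (t - Y)
    + a * (1 - F ((2 * Y - e - t) / a)) + b * (1 - F ((2 * Y - d - t) / b))

section period

variable {ρ η a b m d e Y : ℝ} {F : ℝ → ℝ}

lemma Tt_mono (hF : Q ρ F) (ha : 0 < a) (hb : 0 < b) (hm : 0 < m) : Monotone (Tt a b m d e Y F) := by
  intro s t hst
  unfold Tt
  have h1 : F ((s - d) / b) ≤ F ((t - d) / b) := hF.mono (by gcongr)
  have h2 : F ((s - e) / a) ≤ F ((t - e) / a) := hF.mono (by gcongr)
  have h3 : stp (s - Y) ≤ stp (t - Y) := stp_mono (by linarith)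
  have h4 : F ((2 * Y - e - t) / a) ≤ F ((2 * Y - e - s) / a) := hF.mono (by gcongr)
  have h5 : F ((2 * Y - d - t) / b) ≤ F ((2 * Y - d - s) / b) := hF.mono (by gcongr)
  have h1' := mul_le_mul_of_nonneg_left h1 hb.le
  have h2' := mul_le_mul_of_nonneg_left h2 ha.le
  have h3' := mul_le_mul_of_nonneg_left h3 hm.le
  have h4' := mul_le_mul_of_nonneg_left h4 ha.le
  have h5' := mul_le_mul_of_nonneg_left h5 hb.le
  linarith

lemma Tt_zero (hF : Q ρ F) (ha : 0 < a) (hb : 0 < b) (hρ : 0 < ρ) (hd : 0 ≤ d) (he : 0 ≤ e)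
    (h1 : d + ρ * b ≤ Y) (h2 : e + ρ * a ≤ Y) {t : ℝ} (ht : t ≤ 0) :
    Tt a b m d e Y F t = 0 := by
  have hY : 0 < Y := by nlinarith [mul_pos hρ hb]
  unfold Tt
  rw [hF.zero ((t - d) / b) (div_nonpos_of_nonpos_of_nonneg (by linarith) hb.le),
    hF.zero ((t - e) / a) (div_nonpos_of_nonpos_of_nonneg (by linarith) ha.le),
    stp_of_neg (by linarith), hF.one ((2 * Y - e - t) / a) (by rw [le_div_iff₀ ha]; linarith),
    hF.one ((2 * Y - d - t) / b) (by rw [le_div_iff₀ hb]; linarith)]
  ring

lemma Tt_one (hF : Q ρ F) (ha : 0 < a) (hb : 0 < b) (hρ : 0 < ρ) (hd : 0 ≤ d) (he : 0 ≤ e)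
    (h1 : d + ρ * b ≤ Y) (h2 : e + ρ * a ≤ Y) {t : ℝ} (ht : 2 * Y ≤ t) :
    Tt a b m d e Y F t = 2 * b + 2 * a + m := by
  have hY : 0 < Y := by nlinarith [mul_pos hρ hb]
  unfold Tt
  rw [hF.zero ((2 * Y - e - t) / a) (div_nonpos_of_nonpos_of_nonneg (by linarith) ha.le),
    hF.zero ((2 * Y - d - t) / b) (div_nonpos_of_nonpos_of_nonneg (by linarith) hb.le),
    stp_of_nonneg (by linarith), hF.one ((t - e) / a) (by rw [le_div_iff₀ ha]; linarith),
    hF.one ((t - d) / b) (by rw [le_div_iff₀ hb]; linarith)]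
  ring

/-- one period with both heavy atoms -/
noncomputable def Pp (a b m d e Y : ℝ) (F : ℝ → ℝ) (t : ℝ) : ℝ :=
  stp t + Tt a b m d e Y F t + stp (t - 2 * Y)

lemma stp_cov {F : ℝ → ℝ} {p : ℝ} (hF : ∀ u v, u < p → p < v → 1 ≤ F v - F u) {x : ℝ}
    (h1 : p - 1 / 2 < x) (h2 : x < p + 1 / 2) : x ∈ EF F := by
  set s := min (x - (p - 1 / 2)) (p + 1 / 2 - x) with hs
  have hs0 : 0 < s := lt_min (by linarith) (by linarith)
  have hs1 : s ≤ x - (p - 1 / 2) := min_le_left _ _
  have hs2 : s ≤ p + 1 / 2 - x := min_le_right _ _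
  have := hF (p - s / 2) (p + s / 2) (by linarith) (by linarith)
  exact ⟨p - s / 2, p + s / 2, by linarith, by linarith, by linarith⟩

theorem Pp_cov (hρ : 1 ≤ ρ) (hF : Q ρ F)
    (hnear : ∀ t, 0 ≤ t → t ≤ ρ → |F t - t / ρ| ≤ η)
    (ha : 0 < a) (hb : 0 < b) (hm : 0 < m) (hη : 0 ≤ η) (hd : 0 < d) (he : 0 < e)
    (c0 : d < 1) (c1 : d < (1 + b + a) / 2) (c2 : d + ρ * b < 1 + b - b * η)
    (c3 : e + ρ * a < 1 + b + a - a * η) (c3' : e ≤ 1 + b)
    (c4 : Y - (1 + b + a + m) / 2 < d + ρ * b)
    (c5 : e < (1 + b + a + m) / 2) (c6 : Y - (e + ρ * a) < (m + a) / 2)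
    (c6' : Y - e < m + a - a * η) (c7 : Y - (e + ρ * a) < m)
    (o1 : d + ρ * b ≤ e) (o2 : e + ρ * a ≤ Y) :
    volume (Ioo (-(1 / 2)) (2 * Y + 1 / 2) \ EF (Pp a b m d e Y F)) = 0 := by
  have hρ0 : 0 < ρ := by linarith
  have hρa : 0 < ρ * a := mul_pos hρ0 ha
  have hρb : 0 < ρ * b := mul_pos hρ0 hb
  have hY : 0 < Y := by linarith
  have hTm := Tt_mono (d := d) (e := e) (Y := Y) hF ha hb hm
  have hT0 : ∀ t ≤ 0, Tt a b m d e Y F t = 0 := fun t ht =>
    Tt_zero hF ha hb hρ0 hd.le he.le (by linarith) o2 ht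
  have hT1 : ∀ t, 2 * Y ≤ t → Tt a b m d e Y F t = 2 * b + 2 * a + m := fun t ht =>
    Tt_one hF ha hb hρ0 hd.le he.le (by linarith) o2 ht
  set P := Pp a b m d e Y F with hP
  -- increments of the pieces
  have hinc : ∀ u v, u ≤ v → (stp v - stp u) + (Tt a b m d e Y F v - Tt a b m d e Y F u)
      + (stp (v - 2 * Y) - stp (u - 2 * Y)) = P v - P u := by
    intro u v _; simp only [hP, Pp]; ring
  have hTinc : ∀ u v, Tt a b m d e Y F v - Tt a b m d e Y F u
      = (b * F ((v - d) / b) - b * F ((u - d) / b)) + (a * F ((v - e) / a) - a * F ((u - e) / a))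
        + m * (stp (v - Y) - stp (u - Y))
        + (a * F ((2 * Y - e - u) / a) - a * F ((2 * Y - e - v) / a))
        + (b * F ((2 * Y - d - u) / b) - b * F ((2 * Y - d - v) / b)) := by
    intro u v; unfold Tt; ring
  have m1 : ∀ u v, u ≤ v → 0 ≤ b * F ((v - d) / b) - b * F ((u - d) / b) := by
    intro u v huv
    have : F ((u - d) / b) ≤ F ((v - d) / b) := hF.mono (by gcongr)
    nlinarith
  have m2 : ∀ u v, u ≤ v → 0 ≤ a * F ((v - e) / a) - a * F ((u - e) / a) := by
    intro u v huv
    have : F ((u - e) / a) ≤ F ((v - e) / a) := hF.mono (by gcongr)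
    nlinarith
  have m3 : ∀ u v, u ≤ v → 0 ≤ m * (stp (v - Y) - stp (u - Y)) := by
    intro u v huv
    exact mul_nonneg hm.le (sub_nonneg.2 (stp_mono (by linarith)))
  have m4 : ∀ u v, u ≤ v → 0 ≤ a * F ((2 * Y - e - u) / a) - a * F ((2 * Y - e - v) / a) := by
    intro u v huv
    have : F ((2 * Y - e - v) / a) ≤ F ((2 * Y - e - u) / a) := hF.mono (by gcongr)
    nlinarith
  have m5 : ∀ u v, u ≤ v → 0 ≤ b * F ((2 * Y - d - u) / b) - b * F ((2 * Y - d - v) / b) := by
    intro u v huv
    have : F ((2 * Y - d - v) / b) ≤ F ((2 * Y - d - u) / b) := hF.mono (by gcongr)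
    nlinarith
  have m6 : ∀ u v, u ≤ v → 0 ≤ stp v - stp u := fun u v huv => sub_nonneg.2 (stp_mono huv)
  have m7 : ∀ u v, u ≤ v → 0 ≤ stp (v - 2 * Y) - stp (u - 2 * Y) := fun u v huv =>
    sub_nonneg.2 (stp_mono (by linarith))
  -- left half
  have hleft : volume (Ioo 0 Y \ EF P) = 0 := by
    refine half hρ hF hnear ha hb hη ?_ ?_ ?_ ?_ ?_ c0 c1 c2 c3 c3' c4 c5 c6 c6' c7
    · intro u v hu hv
      rw [← hinc u v (by linarith), hTinc, stp_of_neg hu, stp_of_nonneg hv.le]
      have h1 : F ((u - d) / b) = 0 :=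
        hF.zero _ (div_nonpos_of_nonpos_of_nonneg (by linarith) hb.le)
      have h2 : F ((u - e) / a) = 0 :=
        hF.zero _ (div_nonpos_of_nonpos_of_nonneg (by linarith) ha.le)
      rw [h1, h2]
      have := m3 u v (by linarith)
      have := m4 u v (by linarith)
      have := m5 u v (by linarith)
      have := m7 u v (by linarith)
      linarith
    · intro u v hu hv
      rw [← hinc u v (by linarith), hTinc, stp_of_neg hu, stp_of_nonneg (by linarith)]
      have h1 : F ((u - d) / b) = 0 :=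
        hF.zero _ (div_nonpos_of_nonpos_of_nonneg (by linarith) hb.le)
      have h2 : F ((u - e) / a) = 0 :=
        hF.zero _ (div_nonpos_of_nonpos_of_nonneg (by linarith) ha.le)
      have h3 : F ((v - d) / b) = 1 := hF.one _ (by rw [le_div_iff₀ hb]; linarith)
      have h4 : F ((v - e) / a) = 1 := hF.one _ (by rw [le_div_iff₀ ha]; linarith)
      have h5 : stp (v - Y) = 1 := stp_of_nonneg (by linarith)
      have h6 : stp (u - Y) = 0 := stp_of_neg (by linarith)
      rw [h1, h2, h3, h4, h5, h6]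
      have := m4 u v (by linarith)
      have := m5 u v (by linarith)
      have := m7 u v (by linarith)
      linarith
    · intro u v hu hv
      rw [← hinc u v (by linarith), hTinc]
      have h4 : F ((v - e) / a) = 1 := hF.one _ (by rw [le_div_iff₀ ha]; linarith)
      have h5 : stp (v - Y) = 1 := stp_of_nonneg (by linarith)
      have h6 : stp (u - Y) = 0 := stp_of_neg (by linarith)
      rw [h4, h5, h6]
      have := m1 u v (by linarith)
      have := m4 u v (by linarith)
      have := m5 u v (by linarith)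
      have := m6 u v (by linarith)
      have := m7 u v (by linarith)
      linarith
    · intro u v huv
      rw [← hinc u v huv, hTinc]
      have := m2 u v huv
      have := m3 u v huv
      have := m4 u v huv
      have := m5 u v huv
      have := m6 u v huv
      have := m7 u v huv
      linarith
    · intro u v huv
      rw [← hinc u v huv, hTinc]
      have := m1 u v huv
      have := m3 u v huv
      have := m4 u v huv
      have := m5 u v huv
      have := m6 u v huv
      have := m7 u v huv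
      linarith
  -- right half
  have hright : volume (Ioo 0 Y \ EF (fun t => 0 - P (2 * Y - t))) = 0 := by
    refine half hρ hF hnear ha hb hη ?_ ?_ ?_ ?_ ?_ c0 c1 c2 c3 c3' c4 c5 c6 c6' c7
    · intro u v hu hv
      have e1 : (0 - P (2 * Y - v)) - (0 - P (2 * Y - u)) = P (2 * Y - u) - P (2 * Y - v) := by ring
      simp only [e1]
      rw [← hinc (2 * Y - v) (2 * Y - u) (by linarith), hTinc]
      have h7 : stp (2 * Y - u - 2 * Y) = 1 := stp_of_nonneg (by linarith)
      have h8 : stp (2 * Y - v - 2 * Y) = 0 := stp_of_neg (by linarith)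
      have e2 : 2 * Y - e - (2 * Y - v) = v - e := by ring
      have e3 : 2 * Y - e - (2 * Y - u) = u - e := by ring
      have e4 : 2 * Y - d - (2 * Y - v) = v - d := by ring
      have e5 : 2 * Y - d - (2 * Y - u) = u - d := by ring
      have h1 : F ((u - d) / b) = 0 :=
        hF.zero _ (div_nonpos_of_nonpos_of_nonneg (by linarith) hb.le)
      have h2 : F ((u - e) / a) = 0 :=
        hF.zero _ (div_nonpos_of_nonpos_of_nonneg (by linarith) ha.le)
      rw [h7, h8, e2, e3, e4, e5, h1, h2]
      have := m1 (2 * Y - v) (2 * Y - u) (by linarith)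
      have := m2 (2 * Y - v) (2 * Y - u) (by linarith)
      have := m3 (2 * Y - v) (2 * Y - u) (by linarith)
      have := m6 (2 * Y - v) (2 * Y - u) (by linarith)
      linarith
    · intro u v hu hv
      have e1 : (0 - P (2 * Y - v)) - (0 - P (2 * Y - u)) = P (2 * Y - u) - P (2 * Y - v) := by ring
      simp only [e1]
      rw [← hinc (2 * Y - v) (2 * Y - u) (by linarith), hTinc]
      have h7 : stp (2 * Y - u - 2 * Y) = 1 := stp_of_nonneg (by linarith)
      have h8 : stp (2 * Y - v - 2 * Y) = 0 := stp_of_neg (by linarith)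
      have e2 : 2 * Y - e - (2 * Y - v) = v - e := by ring
      have e3 : 2 * Y - e - (2 * Y - u) = u - e := by ring
      have e4 : 2 * Y - d - (2 * Y - v) = v - d := by ring
      have e5 : 2 * Y - d - (2 * Y - u) = u - d := by ring
      have h1 : F ((u - d) / b) = 0 :=
        hF.zero _ (div_nonpos_of_nonpos_of_nonneg (by linarith) hb.le)
      have h2 : F ((u - e) / a) = 0 :=
        hF.zero _ (div_nonpos_of_nonpos_of_nonneg (by linarith) ha.le)
      have h3 : F ((v - d) / b) = 1 := hF.one _ (by rw [le_div_iff₀ hb]; linarith)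
      have h4 : F ((v - e) / a) = 1 := hF.one _ (by rw [le_div_iff₀ ha]; linarith)
      have h5 : stp (2 * Y - u - Y) = 1 := stp_of_nonneg (by linarith)
      have h6 : stp (2 * Y - v - Y) = 0 := stp_of_neg (by linarith)
      rw [h7, h8, e2, e3, e4, e5, h1, h2, h3, h4, h5, h6]
      have := m1 (2 * Y - v) (2 * Y - u) (by linarith)
      have := m2 (2 * Y - v) (2 * Y - u) (by linarith)
      have := m6 (2 * Y - v) (2 * Y - u) (by linarith)
      linarith
    · intro u v hu hv
      have e1 : (0 - P (2 * Y - v)) - (0 - P (2 * Y - u)) = P (2 * Y - u) - P (2 * Y - v) := by ring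
      simp only [e1]
      rw [← hinc (2 * Y - v) (2 * Y - u) (by linarith), hTinc]
      have e2 : 2 * Y - e - (2 * Y - v) = v - e := by ring
      have e3 : 2 * Y - e - (2 * Y - u) = u - e := by ring
      have h4 : F ((v - e) / a) = 1 := hF.one _ (by rw [le_div_iff₀ ha]; linarith)
      have h5 : stp (2 * Y - u - Y) = 1 := stp_of_nonneg (by linarith)
      have h6 : stp (2 * Y - v - Y) = 0 := stp_of_neg (by linarith)
      rw [e2, e3, h4, h5, h6]
      have := m1 (2 * Y - v) (2 * Y - u) (by linarith)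
      have := m2 (2 * Y - v) (2 * Y - u) (by linarith)
      have := m5 (2 * Y - v) (2 * Y - u) (by linarith)
      have := m6 (2 * Y - v) (2 * Y - u) (by linarith)
      have := m7 (2 * Y - v) (2 * Y - u) (by linarith)
      linarith
    · intro u v huv
      have e1 : (0 - P (2 * Y - v)) - (0 - P (2 * Y - u)) = P (2 * Y - u) - P (2 * Y - v) := by ring
      simp only [e1]
      rw [← hinc (2 * Y - v) (2 * Y - u) (by linarith), hTinc]
      have e4 : 2 * Y - d - (2 * Y - v) = v - d := by ring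
      have e5 : 2 * Y - d - (2 * Y - u) = u - d := by ring
      rw [e4, e5]
      have := m1 (2 * Y - v) (2 * Y - u) (by linarith)
      have := m2 (2 * Y - v) (2 * Y - u) (by linarith)
      have := m3 (2 * Y - v) (2 * Y - u) (by linarith)
      have := m4 (2 * Y - v) (2 * Y - u) (by linarith)
      have := m6 (2 * Y - v) (2 * Y - u) (by linarith)
      have := m7 (2 * Y - v) (2 * Y - u) (by linarith)
      linarith
    · intro u v huv
      have e1 : (0 - P (2 * Y - v)) - (0 - P (2 * Y - u)) = P (2 * Y - u) - P (2 * Y - v) := by ring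
      simp only [e1]
      rw [← hinc (2 * Y - v) (2 * Y - u) (by linarith), hTinc]
      have e2 : 2 * Y - e - (2 * Y - v) = v - e := by ring
      have e3 : 2 * Y - e - (2 * Y - u) = u - e := by ring
      rw [e2, e3]
      have := m1 (2 * Y - v) (2 * Y - u) (by linarith)
      have := m2 (2 * Y - v) (2 * Y - u) (by linarith)
      have := m3 (2 * Y - v) (2 * Y - u) (by linarith)
      have := m5 (2 * Y - v) (2 * Y - u) (by linarith)
      have := m6 (2 * Y - v) (2 * Y - u) (by linarith)
      have := m7 (2 * Y - v) (2 * Y - u) (by linarith)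
      linarith
  -- heavy atoms
  have hH0 : ∀ x, -(1 / 2) < x → x < 1 / 2 → x ∈ EF P := by
    intro x h1 h2
    refine stp_cov (p := 0) ?_ (by linarith) (by linarith)
    intro u v hu hv
    rw [← hinc u v (by linarith), stp_of_neg hu, stp_of_nonneg hv.le]
    have := sub_nonneg.2 (hTm (show u ≤ v by linarith))
    have := m7 u v (by linarith)
    linarith
  have hH1 : ∀ x, 2 * Y - 1 / 2 < x → x < 2 * Y + 1 / 2 → x ∈ EF P := by
    intro x h1 h2
    refine stp_cov (p := 2 * Y) ?_ (by linarith) (by linarith)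
    intro u v hu hv
    rw [← hinc u v (by linarith), stp_of_neg (show u - 2 * Y < 0 by linarith),
      stp_of_nonneg (show 0 ≤ v - 2 * Y by linarith)]
    have := sub_nonneg.2 (hTm (show u ≤ v by linarith))
    have := m6 u v (by linarith)
    linarith
  have hsub : Ioo (-(1 / 2)) (2 * Y + 1 / 2) \ EF P ⊆
      (Ioo 0 Y \ EF P) ∪ {x | 2 * Y - x ∈ Ioo 0 Y \ EF (fun t => 0 - P (2 * Y - t))} ∪ {Y} := by
    rintro x ⟨⟨h1, h2⟩, hx⟩
    have h3 : 1 / 2 ≤ x := by
      by_contra h; push Not at h; exact hx (hH0 x h1 h)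
    have h4 : x ≤ 2 * Y - 1 / 2 := by
      by_contra h; push Not at h; exact hx (hH1 x h h2)
    rcases lt_trichotomy x Y with h5 | h5 | h5
    · left; left; exact ⟨⟨by linarith, h5⟩, hx⟩
    · right; exact h5
    · left; right
      refine ⟨⟨by linarith, by linarith⟩, ?_⟩
      intro h6
      rw [EF_refl] at h6
      rw [sub_sub_cancel] at h6
      exact hx h6
  refine measure_mono_null hsub (measure_union_null (measure_union_null hleft ?_) ?_)
  · exact null_refl hright
  · exact measure_singleton _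

end period

end Pool.Agent.H796R2.CI
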