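import Pool.Agent.H796R2.CJ

/-!
# Lower bound for the weak type constant: iteration
-/

open MeasureTheory Set
open scoped ENNReal Pointwise

namespace Pool.Agent.H796R2.CI

/-! ### Juxtaposition -/

/-- `R` scaled copies side by side -/
noncomputable def jx (ρ : ℝ) (F : ℝ → ℝ) (R : ℕ) (t : ℝ) : ℝ :=
  ∑ k ∈ Finset.range R, 1 / (R : ℝ) * F ((t - k * ρ / R) / (1 / R))

lemma jx_sum {ρ : ℝ} (hρ : 0 < ρ) {F : ℝ → ℝ} (hF : Q ρ F) (R : ℕ) : ∀ s : ℝ, 0 ≤ s → s ≤ R * ρ →
    |(∑ k ∈ Finset.range R, F (s - k * ρ)) - s / ρ| ≤ 1 := by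
  induction R with
  | zero =>
    intro s h0 h1
    have : s = 0 := by simp at h1; linarith
    simp [this]
  | succ R ih =>
    intro s h0 h1
    rw [Finset.sum_range_succ']
    have e : ∀ k : ℕ, F (s - ((k + 1 : ℕ) : ℝ) * ρ) = F ((s - ρ) - k * ρ) := by
      intro k; congr 1; push_cast; ring
    simp only [e]
    rcases le_total ρ s with h2 | h2
    · have h3 := ih (s - ρ) (by linarith) (by push_cast at h1; linarith)
      have h4 : F (s - ((0 : ℕ) : ℝ) * ρ) = 1 := hF.one _ (by simpa using h2)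
      rw [h4]
      have h5 : (s - ρ) / ρ = s / ρ - 1 := by field_simp
      rw [h5] at h3
      have : ∑ k ∈ Finset.range R, F (s - ρ - ↑k * ρ) + 1 - s / ρ
          = ∑ k ∈ Finset.range R, F (s - ρ - ↑k * ρ) - (s / ρ - 1) := by ring
      rw [this]; exact h3
    · have h3 : ∑ k ∈ Finset.range R, F (s - ρ - ↑k * ρ) = 0 := by
        refine Finset.sum_eq_zero fun k _ => hF.zero _ ?_
        have : 0 ≤ (k : ℝ) * ρ := by positivity
        linarith
      rw [h3, zero_add]
      simp only [Nat.cast_zero, zero_mul, sub_zero]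
      have h4 := hF.nonneg s
      have h5 := hF.le_one s
      have h6 : 0 ≤ s / ρ := by positivity
      have h7 : s / ρ ≤ 1 := by rw [div_le_one hρ]; exact h2
      rw [abs_le]; constructor <;> linarith

lemma jx_Q {ρ : ℝ} (hρ : 0 < ρ) {F : ℝ → ℝ} (hF : Q ρ F) {R : ℕ} (hR : 0 < R) :
    Q ρ (jx ρ F R) ∧ ∀ t, 0 ≤ t → t ≤ ρ → |jx ρ F R t - t / ρ| ≤ 1 / R := by
  have hR' : (0 : ℝ) < R := by exact_mod_cast hR
  have hpos : (0 : ℝ) < 1 / R := by positivity
  have harg : ∀ (t : ℝ) (k : ℕ), (t - k * ρ / R) / (1 / R) = R * t - k * ρ := by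
    intro t k; field_simp
  have hpm : ∀ k : ℕ, Monotone (fun t => 1 / (R : ℝ) * F ((t - k * ρ / R) / (1 / R))) := by
    intro k s t hst
    refine mul_le_mul_of_nonneg_left (hF.mono ?_) hpos.le
    gcongr
  refine ⟨⟨?_, ?_, ?_, ?_⟩, ?_⟩
  · intro s t hst
    exact Finset.sum_le_sum fun k _ => hpm k hst
  · intro t ht
    refine Finset.sum_eq_zero fun k _ => ?_
    rw [harg, hF.zero, mul_zero]
    have : 0 ≤ (k : ℝ) * ρ := by positivity
    nlinarith
  · intro t ht
    have : ∀ k ∈ Finset.range R, 1 / (R : ℝ) * F ((t - k * ρ / R) / (1 / R)) = 1 / R := by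
      intro k hk
      rw [harg, hF.one, mul_one]
      have hk' : (k : ℝ) + 1 ≤ R := by exact_mod_cast Finset.mem_range.1 hk
      nlinarith
    rw [jx, Finset.sum_congr rfl this, Finset.sum_const, Finset.card_range, nsmul_eq_mul]
    field_simp
  · have hsub : Ioo 0 ρ \ EF (jx ρ F R) ⊆
        (⋃ k : ℕ, {x | (x - k * ρ / R) / (1 / R) ∈ Ioo 0 ρ \ EF F}) ∪
          (range fun k : ℕ => (k : ℝ) * ρ / R) := by
      rintro x ⟨⟨h1, h2⟩, hx⟩
      set k := ⌊R * x / ρ⌋₊ with hk
      have hk1 : (k : ℝ) ≤ R * x / ρ := Nat.floor_le (by positivity)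
      have hk2 : R * x / ρ < k + 1 := Nat.lt_floor_add_one _
      rw [le_div_iff₀ hρ] at hk1
      rw [div_lt_iff₀ hρ] at hk2
      rcases eq_or_lt_of_le hk1 with h | h
      · right
        refine ⟨k, ?_⟩
        simp only
        rw [h]; field_simp
      · left
        rw [mem_iUnion]
        refine ⟨k, ?_⟩
        have hkR : k < R := by
          have : (k : ℝ) * ρ < R * ρ := lt_of_lt_of_le h (by nlinarith)
          exact_mod_cast lt_of_mul_lt_mul_right this hρ.le
        refine ⟨?_, ?_⟩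
        · rw [harg]; constructor <;> linarith
        · intro h3
          apply hx
          refine EF_mono (F := fun t => 1 / (R : ℝ) * F ((t - k * ρ / R) / (1 / R))) ?_
            ((EF_affine hpos).2 h3)
          intro u v huv
          unfold jx
          rw [← Finset.sum_sub_distrib]
          exact Finset.single_le_sum (f := fun k : ℕ => 1 / (R : ℝ) * F ((v - k * ρ / R) / (1 / R))
            - 1 / (R : ℝ) * F ((u - k * ρ / R) / (1 / R)))
            (fun j _ => sub_nonneg.2 (hpm j huv)) (Finset.mem_range.2 hkR)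
    refine measure_mono_null hsub (measure_union_null ?_ ?_)
    · rw [measure_iUnion_null_iff]
      intro k
      exact null_affine hF.cov hpos
    · exact (countable_range _).measure_zero _
  · intro t h0 h1
    have h2 := jx_sum hρ hF R (R * t) (by positivity) (by gcongr)
    have h3 : jx ρ F R t = 1 / R * ∑ k ∈ Finset.range R, F (R * t - k * ρ) := by
      unfold jx
      rw [Finset.mul_sum]
      exact Finset.sum_congr rfl fun k _ => by rw [harg]
    rw [h3]
    have h4 : 1 / (R : ℝ) * ∑ k ∈ Finset.range R, F (R * t - k * ρ) - t / ρ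
        = 1 / R * (∑ k ∈ Finset.range R, F (R * t - k * ρ) - R * t / ρ) := by
      rw [mul_sub]; congr 1; field_simp
    rw [h4, abs_mul, abs_of_pos hpos]
    calc 1 / (R : ℝ) * |∑ k ∈ Finset.range R, F (R * t - k * ρ) - R * t / ρ| ≤ 1 / R * 1 :=
          mul_le_mul_of_nonneg_left h2 hpos.le
      _ = 1 / R := mul_one _

/-! ### Chains of periods -/

/-- `N` periods -/
noncomputable def ch (a b m d e Y : ℝ) (F : ℝ → ℝ) (N : ℕ) (t : ℝ) : ℝ :=
  ∑ k ∈ Finset.range (N + 1), stp (t - k * (2 * Y)) +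
    ∑ k ∈ Finset.range N, Tt a b m d e Y F (t - k * (2 * Y))

lemma ch_Q {a b m d e Y : ℝ} {F : ℝ → ℝ} (hTm : Monotone (Tt a b m d e Y F))
    (hT0 : ∀ t ≤ 0, Tt a b m d e Y F t = 0)
    (hT1 : ∀ t, 2 * Y ≤ t → Tt a b m d e Y F t = 2 * b + 2 * a + m) (hY : 0 < Y)
    (hκ : 0 < 2 * b + 2 * a + m)
    (hcov : volume (Ioo (-(1 / 2)) (2 * Y + 1 / 2) \ EF (Pp a b m d e Y F)) = 0)
    {N : ℕ} (hN : 1 ≤ N) :
    ∃ F', Q ((1 + N * (2 * Y)) / (1 + N * (1 + (2 * b + 2 * a + m)))) F' := by
  set κ := 2 * b + 2 * a + m with hκdef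
  set M : ℝ := 1 + N * (1 + κ) with hM
  have hM0 : 0 < M := by positivity
  have hMi : 0 < 1 / M := by positivity
  set G := ch a b m d e Y F N with hG
  have hGm : Monotone G := by
    intro s t hst
    simp only [hG, ch]
    exact add_le_add (Finset.sum_le_sum fun k _ => stp_mono (by linarith))
      (Finset.sum_le_sum fun k _ => hTm (by linarith))
  have hG0 : ∀ t < 0, G t = 0 := by
    intro t ht
    simp only [hG, ch]
    rw [Finset.sum_eq_zero, Finset.sum_eq_zero, add_zero]
    · intro k _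
      apply hT0
      have : 0 ≤ (k : ℝ) * (2 * Y) := by positivity
      linarith
    · intro k _
      apply stp_of_neg
      have : 0 ≤ (k : ℝ) * (2 * Y) := by positivity
      linarith
  have hG1 : ∀ t, N * (2 * Y) ≤ t → G t = M := by
    intro t ht
    simp only [hG, ch]
    have h1 : ∀ k ∈ Finset.range (N + 1), stp (t - k * (2 * Y)) = 1 := by
      intro k hk
      apply stp_of_nonneg
      have hk' : (k : ℝ) ≤ N := by exact_mod_cast Nat.lt_succ_iff.1 (Finset.mem_range.1 hk)
      nlinarith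
    have h2 : ∀ k ∈ Finset.range N, Tt a b m d e Y F (t - k * (2 * Y)) = κ := by
      intro k hk
      apply hT1
      have hk' : (k : ℝ) + 1 ≤ N := by exact_mod_cast Finset.mem_range.1 hk
      nlinarith
    rw [Finset.sum_congr rfl h1, Finset.sum_congr rfl h2, Finset.sum_const, Finset.sum_const,
      Finset.card_range, Finset.card_range, nsmul_eq_mul, nsmul_eq_mul, hM]
    push_cast; ring
  have hGcov : volume (Ioo (-(1 / 2)) (N * (2 * Y) + 1 / 2) \ EF G) = 0 := by
    have hex : ∀ n : ℕ, 1 ≤ n → ∀ x : ℝ, -(1 / 2) < x → x < n * (2 * Y) + 1 / 2 →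
        ∃ k : ℕ, k < n ∧ k * (2 * Y) - 1 / 2 < x ∧ x < (k + 1) * (2 * Y) + 1 / 2 := by
      intro n hn
      induction n, hn using Nat.le_induction with
      | base =>
        intro x h1 h2
        refine ⟨0, one_pos, ?_, ?_⟩
        · push_cast; linarith
        · push_cast at h2 ⊢; linarith
      | succ n hn ih =>
        intro x h1 h2
        rcases lt_or_ge x (n * (2 * Y) + 1 / 2) with h3 | h3
        · obtain ⟨k, hk, h4, h5⟩ := ih x h1 h3
          exact ⟨k, by omega, h4, h5⟩
        · refine ⟨n, by omega, by linarith, ?_⟩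
          push_cast at h2; exact h2
    have hsub : Ioo (-(1 / 2)) (N * (2 * Y) + 1 / 2) \ EF G ⊆
        ⋃ k : ℕ, {x | (x - k * (2 * Y)) / 1 ∈ Ioo (-(1 / 2)) (2 * Y + 1 / 2) \
          EF (Pp a b m d e Y F)} := by
      rintro x ⟨⟨h1, h2⟩, hx⟩
      obtain ⟨k, hk, h3, h4⟩ := hex N hN x h1 h2
      rw [mem_iUnion]
      refine ⟨k, ⟨by rw [div_one]; linarith, by rw [div_one]; linarith⟩, ?_⟩
      intro h5
      apply hx
      refine EF_mono (F := fun t => 1 * Pp a b m d e Y F ((t - k * (2 * Y)) / 1)) ?_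
        ((EF_affine one_pos).2 h5)
      intro u v huv
      simp only [div_one, one_mul, hG, ch, Pp]
      have hs1 : (stp (v - k * (2 * Y)) - stp (u - k * (2 * Y)))
          + (stp (v - ((k + 1 : ℕ) : ℝ) * (2 * Y)) - stp (u - ((k + 1 : ℕ) : ℝ) * (2 * Y)))
          ≤ ∑ j ∈ Finset.range (N + 1), (stp (v - j * (2 * Y)) - stp (u - j * (2 * Y))) := by
        rw [← Finset.sum_pair (f := fun j : ℕ => stp (v - j * (2 * Y)) - stp (u - j * (2 * Y)))
          (show k ≠ k + 1 by omega)]
        refine Finset.sum_le_sum_of_subset_of_nonneg ?_ ?_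
        · intro j hj
          simp only [Finset.mem_insert, Finset.mem_singleton] at hj
          rw [Finset.mem_range]; omega
        · intro j _ _
          exact sub_nonneg.2 (stp_mono (by linarith))
      have hs2 : Tt a b m d e Y F (v - k * (2 * Y)) - Tt a b m d e Y F (u - k * (2 * Y))
          ≤ ∑ j ∈ Finset.range N, (Tt a b m d e Y F (v - j * (2 * Y))
            - Tt a b m d e Y F (u - j * (2 * Y))) :=
        Finset.single_le_sum (f := fun j : ℕ => Tt a b m d e Y F (v - j * (2 * Y))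
            - Tt a b m d e Y F (u - j * (2 * Y)))
          (fun j _ => sub_nonneg.2 (hTm (by linarith))) (Finset.mem_range.2 hk)
      rw [Finset.sum_sub_distrib] at hs1 hs2
      have e1 : v - ((k + 1 : ℕ) : ℝ) * (2 * Y) = v - k * (2 * Y) - 2 * Y := by push_cast; ring
      have e2 : u - ((k + 1 : ℕ) : ℝ) * (2 * Y) = u - k * (2 * Y) - 2 * Y := by push_cast; ring
      rw [e1, e2] at hs1
      linarith
    refine measure_mono_null hsub ?_
    rw [measure_iUnion_null_iff]
    intro k
    exact null_affine hcov one_pos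
  refine ⟨fun t => 1 / M * G ((t - 1 / (2 * M)) / (1 / M)), ?_, ?_, ?_, ?_⟩
  · intro s t hst
    refine mul_le_mul_of_nonneg_left (hGm ?_) hMi.le
    gcongr
  · intro t ht
    have : (t - 1 / (2 * M)) / (1 / M) < 0 := by
      apply div_neg_of_neg_of_pos _ hMi
      have : 0 < 1 / (2 * M) := by positivity
      linarith
    rw [hG0 _ this, mul_zero]
  · intro t ht
    have : N * (2 * Y) ≤ (t - 1 / (2 * M)) / (1 / M) := by
      rw [le_div_iff₀ hMi]
      rw [div_le_iff₀ hM0] at ht
      have h1 : ↑N * (2 * Y) * (1 / M) = (N * (2 * Y)) / M := by ring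
      rw [h1, div_le_iff₀ hM0, sub_mul]
      have h2 : 1 / (2 * M) * M = 1 / 2 := by field_simp
      rw [h2]; linarith
    rw [hG1 _ this]; field_simp
  · have hsub : Ioo 0 ((1 + N * (2 * Y)) / M) \ EF (fun t => 1 / M * G ((t - 1 / (2 * M)) / (1 / M)))
        ⊆ {x | (x - 1 / (2 * M)) / (1 / M) ∈ Ioo (-(1 / 2)) (N * (2 * Y) + 1 / 2) \ EF G} := by
      rintro x ⟨⟨h1, h2⟩, hx⟩
      refine ⟨⟨?_, ?_⟩, ?_⟩
      · rw [lt_div_iff₀ hMi]
        have : -(1 / 2) * (1 / M) = - (1 / (2 * M)) := by field_simp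
        rw [this]; linarith
      · rw [div_lt_iff₀ hMi]
        rw [lt_div_iff₀ hM0] at h2
        have h3 : (↑N * (2 * Y) + 1 / 2) * (1 / M) = (N * (2 * Y) + 1 / 2) / M := by ring
        rw [h3, lt_div_iff₀ hM0, sub_mul]
        have h4 : 1 / (2 * M) * M = 1 / 2 := by field_simp
        rw [h4]; linarith
      · intro h3
        exact hx ((EF_affine hMi).2 h3)
    exact measure_mono_null hsub (null_affine hGcov hMi)

end Pool.Agent.H796R2.CI
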