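import Pool.Agent.H796R2.CK

/-!
# Lower bound for the weak type constant: conclusion
-/

open MeasureTheory Set
open scoped ENNReal Pointwise

namespace Pool.Agent.H796R2.CI

/-- one step of the iteration -/
theorem step {ρ : ℝ} (h1 : 1 ≤ ρ) (h2 : ρ ≤ 2) {F : ℝ → ℝ} (hF : Q ρ F) {γ : ℝ} (hγ : 0 < γ)
    (hγ2 : γ ≤ 5 / 2) (hg : γ ≤ 11 * ρ - 5 / 2 - 6 * ρ ^ 2) :
    ∃ ρ' F', Q ρ' F' ∧ ρ + γ / 88 ≤ ρ' := by
  have hρ0 : 0 < ρ := by linarith
  -- parameters
  have hden : 0 < 4 * ρ - 2 - 1 / (2 * ρ) := by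
    have : 1 / (2 * ρ) ≤ 1 / 2 := by
      rw [div_le_div_iff₀ (by positivity) (by norm_num)]; linarith
    linarith
  set a := 1 / (4 * ρ - 2 - 1 / (2 * ρ)) with ha'
  have ha : 0 < a := by positivity
  set b := a / (2 * ρ) with hb'
  have hb : 0 < b := by positivity
  have hρb : ρ * b = a / 2 := by rw [hb']; field_simp
  have hrel0 : a * (4 * ρ - 2 - 1 / (2 * ρ)) = 1 := by
    rw [ha']; exact one_div_mul_cancel hden.ne'
  set p := ρ * a with hp'
  have hrel : 4 * p - 2 * a = 1 + b := by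
    have : a * (4 * ρ - 2 - 1 / (2 * ρ)) = 4 * p - 2 * a - b := by rw [hp', hb']; ring
    linarith
  have hpa : a ≤ p := by
    have := mul_le_mul_of_nonneg_right h1 ha.le
    rw [hp']; linarith
  have hba : b ≤ a / 2 := by
    have := mul_le_mul_of_nonneg_right h1 hb.le
    linarith
  have ha23 : a ≤ 2 / 3 := by linarith
  have ha16 : 1 / 6 ≤ a := by
    have h3 : (4 * ρ - 2) * a = 1 + b := by rw [← hrel, hp']; ring
    have h4 := mul_le_mul_of_nonneg_right h2 ha.le
    linarith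
  set θ := γ / 56 with hθ'
  have hθ : 0 < θ := by positivity
  have hθ2 : θ ≤ 5 / 112 := by rw [hθ']; linarith
  set η := θ / 2 with hη'
  have hη : 0 < η := by positivity
  -- fine chunk
  obtain ⟨R, hR⟩ := exists_nat_gt (1 / η)
  have hR0 : 0 < R := by
    have : (0 : ℝ) < R := lt_trans (by positivity) hR
    exact_mod_cast this
  obtain ⟨hQ, hnear⟩ := jx_Q hρ0 hF hR0
  have hRη : 1 / (R : ℝ) ≤ η := by
    have hR' : (0 : ℝ) < R := by exact_mod_cast hR0
    rw [div_le_iff₀ hR']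
    rw [div_lt_iff₀ hη] at hR
    linarith
  set F₁ := jx ρ F R with hF₁
  have hnear' : ∀ t, 0 ≤ t → t ≤ ρ → |F₁ t - t / ρ| ≤ η := fun t h3 h4 =>
    (hnear t h3 h4).trans hRη
  set m := 2 * p - a with hm'
  have hm : 0 < m := by linarith
  set D := (1 + b + a) / 2 with hD
  set d := (1 - θ) * D with hd'
  set e := d + ρ * b + (1 - θ) * (p - a) with he'
  set Y := e + p + (1 - θ) * p with hY'
  have hD1 : D ≤ 1 := by rw [hD]; linarith
  have hD0 : 1 / 2 ≤ D := by rw [hD]; linarith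
  have hθD : θ / 2 ≤ θ * D := by
    have := mul_le_mul_of_nonneg_left hD0 hθ.le
    linarith
  have hθp : 0 < θ * p := mul_pos hθ (by linarith)
  have hθpa : 0 ≤ θ * (p - a) := mul_nonneg hθ.le (by linarith)
  have hθa : 0 < θ * a := mul_pos hθ ha
  have haη : a * η ≤ θ / 3 := by
    have := mul_le_mul_of_nonneg_right ha23 hη.le
    rw [hη'] at this ⊢; linarith
  have hbη : b * η ≤ θ / 6 := by
    have h3 : b ≤ 1 / 3 := by linarith
    have := mul_le_mul_of_nonneg_right h3 hη.le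
    rw [hη'] at this ⊢; linarith
  have hθa' : a * η = θ * a / 2 := by rw [hη']; ring
  have hd : d = D - θ * D := by rw [hd']; ring
  have he : e = D - θ * D + a / 2 + (p - a) - θ * (p - a) := by rw [he', hd, hρb]; ring
  have hY : Y = e + 2 * p - θ * p := by rw [hY']; ring
  have hθ1 : θ * D ≤ θ := by
    have := mul_le_mul_of_nonneg_left hD1 hθ.le
    linarith
  have hd0 : 0 < d := by rw [hd']; exact mul_pos (by linarith) (by linarith)
  have he0 : 0 < e := by
    rw [he']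
    have : 0 ≤ (1 - θ) * (p - a) := mul_nonneg (by linarith) (by linarith)
    have : 0 < ρ * b := by positivity
    linarith
  have o1 : d + ρ * b ≤ e := by
    rw [he']
    have : 0 ≤ (1 - θ) * (p - a) := mul_nonneg (by linarith) (by linarith)
    linarith
  have hρa : ρ * a = p := hp'.symm
  have o2 : e + ρ * a ≤ Y := by
    rw [hρa, hY']
    have : 0 ≤ (1 - θ) * p := mul_nonneg (by linarith) (by linarith)
    linarith
  have hY0 : 0 < Y := by linarith [mul_pos hρ0 ha]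
  have hcov := Pp_cov (ρ := ρ) (η := η) (a := a) (b := b) (m := m) (d := d) (e := e) (Y := Y)
    (F := F₁) h1 hQ hnear' ha hb hm hη.le hd0 he0
    (by linarith) (by linarith) (by linarith) (by linarith) (by linarith)
    (by linarith) (by linarith) (by linarith) (by linarith) (by linarith) o1 o2
  -- number of periods
  obtain ⟨N, hN⟩ := exists_nat_gt (48 / γ)
  have hN0 : (0 : ℝ) < N := lt_trans (by positivity) hN
  have hN1 : 1 ≤ N := by
    have : 0 < N := by exact_mod_cast hN0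
    omega
  rw [div_lt_iff₀ hγ] at hN
  obtain ⟨F', hF'⟩ := ch_Q (N := N) (Tt_mono (d := d) (e := e) (Y := Y) hQ ha hb hm)
    (fun t ht => Tt_zero hQ ha hb hρ0 hd0.le he0.le (by linarith [mul_pos hρ0 ha]) o2 ht)
    (fun t ht => Tt_one hQ ha hb hρ0 hd0.le he0.le (by linarith [mul_pos hρ0 ha]) o2 ht)
    hY0 (by linarith) hcov hN1
  refine ⟨_, F', hF', ?_⟩
  set κ := 1 + (2 * b + 2 * a + m) with hκ
  have hκ0 : 0 < κ := by positivity
  have hκ1 : κ ≤ 11 / 3 := by linarith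
  rw [le_div_iff₀ (by positivity)]
  -- main inequality
  have hnet : 2 * Y = ρ * κ + a * (11 * ρ - 5 / 2 - 6 * ρ ^ 2) - 2 * θ * (D + 2 * p - a) := by
    have e1 : ρ * κ = ρ + 2 * (ρ * b) + 2 * p + ρ * m := by rw [hκ, ← hρa]; ring
    have e2 : ρ * m = 2 * ρ * p - p := by rw [hm', ← hρa]; ring
    have e3 : a * (11 * ρ - 5 / 2 - 6 * ρ ^ 2) = 11 * p - 5 / 2 * a - 6 * ρ * p := by
      rw [← hρa]; ring
    have e4 : ρ * (4 * p - 2 * a) = ρ * (1 + b) := by rw [hrel]
    have e5 : ρ = 4 * ρ * p - 2 * p - a / 2 := by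
      have : ρ * (1 + b) = ρ + ρ * b := by ring
      rw [this, hρb] at e4
      have : ρ * (4 * p - 2 * a) = 4 * ρ * p - 2 * p := by rw [← hρa]; ring
      linarith
    rw [e1, e2, e3, hρb, hY, he]
    linarith
  have hag : γ / 6 ≤ a * (11 * ρ - 5 / 2 - 6 * ρ ^ 2) := by
    calc γ / 6 = 1 / 6 * γ := by ring
      _ ≤ a * (11 * ρ - 5 / 2 - 6 * ρ ^ 2) := mul_le_mul ha16 hg hγ.le ha.le
  have hp1 : 2 * p ≤ 4 / 3 := by linarith
  have hθt : 2 * θ * (D + 2 * p - a) ≤ γ / 12 := by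
    have : D + 2 * p - a ≤ 7 / 3 := by linarith
    have h3 : 2 * θ * (D + 2 * p - a) ≤ 2 * θ * (7 / 3) :=
      mul_le_mul_of_nonneg_left this (by linarith)
    have h4 : 2 * θ * (7 / 3) = γ / 12 := by rw [hθ']; ring
    linarith
  have hfin : γ / 24 ≤ 2 * Y - (ρ + γ / 88) * κ := by
    have h3 : γ / 88 * κ ≤ γ / 24 := by
      have := mul_le_mul_of_nonneg_left hκ1 (show 0 ≤ γ / 88 by positivity)
      linarith
    rw [hnet]
    have h4 : (ρ + γ / 88) * κ = ρ * κ + γ / 88 * κ := by ring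
    rw [h4]
    linarith
  have h5 : (N : ℝ) * (γ / 24) ≤ N * (2 * Y - (ρ + γ / 88) * κ) :=
    mul_le_mul_of_nonneg_left hfin hN0.le
  have h6 : (ρ + γ / 88) * (1 + N * κ) = (ρ + γ / 88) + N * (2 * Y)
      - N * (2 * Y - (ρ + γ / 88) * κ) := by ring
  rw [h6]
  linarith

lemma WeakType.mono {A B : ℝ} (h : WeakType A) (hAB : A ≤ B) : WeakType B := by
  intro f hf t ht
  refine (h f hf t ht).trans (mul_le_mul_left ?_ _)
  exact ENNReal.ofReal_le_ofReal (by gcongr)

lemma Q_le {A : ℝ} (hA : 0 < A) (hW : WeakType A) {ρ : ℝ} (hρ : 0 ≤ ρ) {F : ℝ → ℝ} (hF : Q ρ F) :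
    ρ ≤ A := by
  have h1 := EF_bound hA hW hF.mono hρ hF.zero hF.one
  have h2 : volume (Ioo 0 ρ) ≤ volume (EF F) := by
    calc volume (Ioo 0 ρ) ≤ volume ((Ioo 0 ρ \ EF F) ∪ EF F) :=
          measure_mono (fun x hx => by by_cases h : x ∈ EF F; exacts [Or.inr h, Or.inl ⟨hx, h⟩])
      _ ≤ volume (Ioo 0 ρ \ EF F) + volume (EF F) := measure_union_le _ _
      _ = volume (EF F) := by rw [hF.cov, zero_add]
  rw [Real.volume_Ioo, sub_zero] at h2
  have h3 := h2.trans h1
  rwa [ENNReal.ofReal_le_ofReal_iff (by positivity), mul_one] at h3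

/-- The weak type constant is at least `(11 + √61) / 12`. -/
theorem weak_lower {A : ℝ} (hW : WeakType A) : (11 + √61) / 12 ≤ A := by
  by_contra hcon
  push Not at hcon
  set s := √61 with hs
  have hs2 : s ^ 2 = 61 := Real.sq_sqrt (by norm_num)
  have hs0 : 0 ≤ s := Real.sqrt_nonneg _
  have hs8 : s < 8 := by nlinarith
  have hs7 : 7 < s := by nlinarith
  set B := max A 1 with hB
  have hB1 : 1 ≤ B := le_max_right _ _
  have hBC : B < (11 + s) / 12 := max_lt hcon (by linarith)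
  have hWB : WeakType B := hW.mono (le_max_left _ _)
  have hgB : 0 < 11 * B - 5 / 2 - 6 * B ^ 2 := by
    have h1 : 0 < (11 + s) / 12 - B := by linarith
    have h2 : 0 < B - (11 - s) / 12 := by linarith
    have h3 := mul_pos h1 h2
    nlinarith
  set γ := min (5 / 2) (11 * B - 5 / 2 - 6 * B ^ 2) with hγ
  have hγ0 : 0 < γ := lt_min (by norm_num) hgB
  have hγ1 : γ ≤ 5 / 2 := min_le_left _ _
  have hγ2 : γ ≤ 11 * B - 5 / 2 - 6 * B ^ 2 := min_le_right _ _
  have hall : ∀ n : ℕ, ∃ ρ F, Q ρ F ∧ 1 + n * (γ / 88) ≤ ρ := by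
    intro n
    induction n with
    | zero => exact ⟨1, _, Q_one, by simp⟩
    | succ n ih =>
      obtain ⟨ρ, F, hF, hρ⟩ := ih
      have h1 : 1 ≤ ρ := by
        have : 0 ≤ (n : ℝ) * (γ / 88) := by positivity
        linarith
      have h2 : ρ ≤ B := Q_le (by linarith) hWB (by linarith) hF
      have hg : γ ≤ 11 * ρ - 5 / 2 - 6 * ρ ^ 2 := by
        have h3 : 0 ≤ (ρ - 1) * (B - ρ) := mul_nonneg (by linarith) (by linarith)
        -- concavity
        rcases eq_or_lt_of_le hB1 with h4 | h4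
        · have : ρ = B := le_antisymm h2 (by linarith)
          rw [this]; exact hγ2
        · have h5 : γ * (B - 1) ≤ (11 * ρ - 5 / 2 - 6 * ρ ^ 2) * (B - 1) := by
            have e : (11 * ρ - 5 / 2 - 6 * ρ ^ 2) * (B - 1)
                = (11 * B - 5 / 2 - 6 * B ^ 2) * (ρ - 1) + (5 / 2) * (B - ρ)
                  + 6 * (B - 1) * ((ρ - 1) * (B - ρ)) := by ring
            rw [e]
            have h6 : γ * (ρ - 1) ≤ (11 * B - 5 / 2 - 6 * B ^ 2) * (ρ - 1) :=
              mul_le_mul_of_nonneg_right hγ2 (by linarith)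
            have h7 : γ * (B - ρ) ≤ (5 / 2) * (B - ρ) :=
              mul_le_mul_of_nonneg_right hγ1 (by linarith)
            have h8 : 0 ≤ 6 * (B - 1) * ((ρ - 1) * (B - ρ)) :=
              mul_nonneg (by linarith) h3
            linarith
          exact le_of_mul_le_mul_right h5 (by linarith)
      obtain ⟨ρ', F', hF', hρ'⟩ := step h1 (by linarith) hF hγ0 hγ1 hg
      refine ⟨ρ', F', hF', ?_⟩
      push_cast
      linarith
  obtain ⟨n, hn⟩ := exists_nat_gt (B / (γ / 88))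
  rw [div_lt_iff₀ (by positivity)] at hn
  obtain ⟨ρ, F, hF, hρ⟩ := hall n
  have h2 : ρ ≤ B := Q_le (by linarith) hWB (by
    have : 0 ≤ (n : ℝ) * (γ / 88) := by positivity
    linarith) hF
  linarith

end Pool.Agent.H796R2.CI
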