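import Pool.Agent.H796R2.CL

/-!
# Vitali bound and the conclusion
-/

open MeasureTheory Set
open scoped ENNReal Pointwise

namespace Pool.Agent.H796R2.CI

/-- every `c < 1/2` is admissible -/
theorem adm_half {c : ℝ} (hc0 : 0 < c) (hc : c < 1 / 2) : Admissible c := by
  classical
  intro E hE δ hδ
  obtain ⟨η, hη, hη2⟩ : ∃ η : ℝ, 0 < η ∧ (1 + (1 + η) * (1 + η)) * c ≤ 1 := by
    refine ⟨min 1 ((1 - 2 * c) / (3 * c)), lt_min one_pos (div_pos (by linarith) (by linarith)), ?_⟩
    set η := min 1 ((1 - 2 * c) / (3 * c)) with hη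
    have h1 : η ≤ 1 := min_le_left _ _
    have h2 : η ≤ (1 - 2 * c) / (3 * c) := min_le_right _ _
    have h0 : 0 < η := lt_min one_pos (div_pos (by linarith) (by linarith))
    rw [le_div_iff₀ (by linarith)] at h2
    nlinarith [mul_pos h0 hc0, mul_nonneg (mul_nonneg h0.le (sub_nonneg.2 h1)) hc0.le]
  obtain ⟨F, hFE, hcov⟩ := hE.elim_nhds_subcover (fun y => Ioo (y - η * δ y) (y + η * δ y))
      (fun y hy => Ioo_mem_nhds (by nlinarith [mul_pos hη (hδ y hy)])
        (by nlinarith [mul_pos hη (hδ y hy)]))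
  have hFfin : (F : Set ℝ).Finite := F.finite_toSet
  obtain ⟨R, hR⟩ : ∃ R, ∀ a ∈ (F : Set ℝ), δ a ≤ R := by
    obtain ⟨R, hR⟩ := (hFfin.image δ).bddAbove
    exact ⟨R, fun a ha => hR ⟨a, ha, rfl⟩⟩
  obtain ⟨u, huF, hud, hu⟩ := Vitali.exists_disjoint_subfamily_covering_enlargement (I δ)
    (F : Set ℝ) δ (1 + η) (by linarith) (fun a ha => (hδ a (hFE a ha)).le) R hR
    (fun a ha => ⟨a, by
      have := hδ a (hFE a ha)
      rw [I, mem_Ioo]; constructor <;> linarith⟩)
  have hufin : u.Finite := hFfin.subset huF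
  have huE : u ⊆ E := fun y hy => hFE y (huF hy)
  refine ⟨u, huE, hufin.countable, hud, ?_⟩
  set K := 1 + (1 + η) * (1 + η) with hK
  have hK0 : 0 < K := by positivity
  have hsub : E ⊆ ⋃ z ∈ u, Ioo (z - K * δ z) (z + K * δ z) := by
    intro x hx
    obtain ⟨y, hy, hxy⟩ := mem_iUnion₂.1 (hcov hx)
    obtain ⟨z, hz, ⟨w, hw1, hw2⟩, hle⟩ := hu y hy
    rw [mem_iUnion₂]
    refine ⟨z, hz, ?_⟩
    simp only [I, mem_Ioo] at hw1 hw2 hxy ⊢
    have hδy := hδ y (hFE y hy)
    have hδz := hδ z (huE hz)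
    have h1 : K * δ z = δ z + (1 + η) * ((1 + η) * δ z) := by rw [hK]; ring
    have h2 : (1 + η) * δ y ≤ (1 + η) * ((1 + η) * δ z) :=
      mul_le_mul_of_nonneg_left hle (by linarith)
    have h3 : (1 + η) * δ y = δ y + η * δ y := by ring
    constructor <;> linarith [hw1.1, hw1.2, hw2.1, hw2.2, hxy.1, hxy.2]
  have h1 : volume E ≤ ENNReal.ofReal K * ∑' z : u, volume (I δ z) := by
    calc volume E ≤ volume (⋃ z ∈ u, Ioo (z - K * δ z) (z + K * δ z)) := measure_mono hsub
      _ ≤ ∑' z : u, volume (Ioo ((z : ℝ) - K * δ z) (z + K * δ z)) :=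
          measure_biUnion_le _ hufin.countable _
      _ = ∑' z : u, ENNReal.ofReal K * volume (I δ z) := by
          refine tsum_congr fun z => ?_
          rw [Real.volume_Ioo, volume_I, ← ENNReal.ofReal_mul hK0.le]
          congr 1; ring
      _ = _ := ENNReal.tsum_mul_left
  calc ENNReal.ofReal c * volume E
      ≤ ENNReal.ofReal c * (ENNReal.ofReal K * ∑' z : u, volume (I δ z)) :=
        mul_le_mul_right h1 _
    _ = ENNReal.ofReal (K * c) * ∑' z : u, volume (I δ z) := by
        rw [← mul_assoc, ← ENNReal.ofReal_mul hc0.le, mul_comm c K]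
    _ ≤ 1 * ∑' z : u, volume (I δ z) := by
        refine mul_le_mul_left ?_ _
        rw [← ENNReal.ofReal_one]
        exact ENNReal.ofReal_le_ofReal hη2
    _ = _ := one_mul _

/-- closedness of the set of weak type constants -/
lemma weak_closed {C : ℝ} (h : ∀ A, C < A → WeakType A) : WeakType C := by
  intro f hf t ht
  have hI : ∫⁻ y, ‖f y‖ₑ ≠ ⊤ := hf.2.ne
  have hlim : Filter.Tendsto (fun n : ℕ => ENNReal.ofReal ((C + 1 / ((n : ℝ) + 1)) / t) *
      ∫⁻ y, ‖f y‖ₑ) Filter.atTop (nhds (ENNReal.ofReal (C / t) * ∫⁻ y, ‖f y‖ₑ)) := by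
    refine ENNReal.Tendsto.mul_const ?_ (Or.inr hI)
    refine ENNReal.tendsto_ofReal ?_
    have : Filter.Tendsto (fun n : ℕ => (C + 1 / ((n : ℝ) + 1)) / t) Filter.atTop
        (nhds ((C + 0) / t)) :=
      (tendsto_const_nhds.add tendsto_one_div_add_atTop_nhds_zero_nat).div_const t
    simpa using this
  refine ge_of_tendsto' hlim fun n => ?_
  exact h _ (by
    have : 0 < 1 / ((n : ℝ) + 1) := Nat.one_div_pos_of_nat
    linarith) f hf t ht

theorem weak_two : WeakType 2 := by
  refine weak_closed fun A hA => ?_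
  have h := weak_of_adm (c := 1 / A) (by positivity)
    (adm_half (by positivity) (by rw [div_lt_div_iff₀ (by linarith) (by norm_num)]; linarith))
  simpa using h

/-- The set of admissible constants is exactly `(-∞, 1 / C]` with `C` the best constant in the
weak type (1,1) inequality of the centred maximal function on the line, and
`(11 + √61) / 12 ≤ C ≤ 2`. -/
theorem main : ∃ C : ℝ, (11 + √61) / 12 ≤ C ∧ C ≤ 2 ∧ IsLeast {A : ℝ | WeakType A} C ∧
    {c : ℝ | Admissible c} = Iic (1 / C) := by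
  have hbdd : BddBelow {A : ℝ | WeakType A} := ⟨(11 + √61) / 12, fun A hA => weak_lower hA⟩
  have hne : {A : ℝ | WeakType A}.Nonempty := ⟨2, weak_two⟩
  set C := sInf {A : ℝ | WeakType A} with hC
  have hlow : (11 + √61) / 12 ≤ C := le_csInf hne fun A hA => weak_lower hA
  have hWC : WeakType C := by
    refine weak_closed fun A hA => ?_
    obtain ⟨B, hB, hBA⟩ := exists_lt_of_csInf_lt hne hA
    exact WeakType.mono hB hBA.le
  have hle : ∀ A, WeakType A → C ≤ A := fun A hA => csInf_le hbdd hA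
  have hs : 0 ≤ √61 := Real.sqrt_nonneg _
  have hC0 : 0 < C := by linarith
  refine ⟨C, hlow, hle 2 weak_two, ⟨hWC, fun A hA => hle A hA⟩, ?_⟩
  ext c
  simp only [mem_ofPred_eq, mem_Iic]
  rcases le_or_gt c 0 with hc | hc
  · constructor
    · intro _
      exact hc.trans (by positivity)
    · intro _ E hE δ hδ
      refine ⟨∅, empty_subset _, countable_empty, pairwiseDisjoint_empty, ?_⟩
      rw [ENNReal.ofReal_of_nonpos hc, zero_mul]
      exact bot_le
  · rw [adm_iff_weak hc]
    constructor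
    · intro h
      have := hle _ h
      rw [le_div_iff₀ hC0]
      rw [le_div_iff₀ hc] at this
      linarith
    · intro h
      refine WeakType.mono hWC ?_
      rw [le_div_iff₀ hc]
      rw [le_div_iff₀ hC0] at h
      linarith

end Pool.Agent.H796R2.CI
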