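import Pool.Agent.Helper348.AmBai

set_option autoImplicit false

open MeasureTheory

namespace WD

/-- there is a closed Helson set of non-synthesis in the Cantor group -/
theorem helson_package : ∃ E : Set G, IsClosed E ∧
    (∃ f, A f ∧ (∀ x ∈ E, f x = 0) ∧ ¬ JE E f) ∧
    (∀ u : C(E, ℂ), ∃ f, A f ∧ ∀ x : E, f x = u x) := by
  classical
  obtain ⟨E, s, h, hE, hs1, hs2, hs4, hh1, hh2, hσ⟩ := exists_EB
  have hcpt : CompactSpace E := isCompact_iff_compactSpace.1 hE.isCompact
  have hR1 : ∀ n, R 1 (h n) := by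
    intro n
    obtain ⟨a, h1, h2, h3, _⟩ := hh1 n
    exact ⟨a, h1, h2, h3⟩
  -- correction terms
  have hv : ∀ n, ∃ v : G → ℂ, R (64 * (8 * (1 / 2) ^ n)) v ∧ ∀ x ∈ E, v x = 1 - 8 * h n x := by
    intro n
    have hc : Continuous (h n) := A_cont ⟨_, hR1 n⟩
    obtain ⟨v, hv1, hv2⟩ := helsonB E hE h hh2 hσ
      ⟨fun x : E => 1 - 8 * h n x, by fun_prop⟩ (8 * (1 / 2) ^ n) (by positivity) (by
        intro x
        show ‖1 - 8 * h n x‖ ≤ 8 * (1 / 2) ^ n
        have h1 : 1 - 8 * h n x = (-8) * (h n x - 1 / 8) := by ring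
        rw [h1, norm_mul]
        have h2 := hh2 n x x.2
        have h3 : ‖(-8 : ℂ)‖ = 8 := by simp
        rw [h3]
        linarith)
    exact ⟨v, hv1, fun x hx => hv2 ⟨x, hx⟩⟩
  choose v hv1 hv2 using hv
  have hu1 : ∀ n, R (1 + ‖(-8 : ℂ)‖ * 1 + ‖(-1 : ℂ)‖ * (64 * (8 * (1 / 2) ^ n)))
      (fun x => 1 + (-8) * h n x + (-1) * v n x) := by
    intro n
    exact R_add (R_add R_one (R_smul _ (hR1 n))) (R_smul _ (hv1 n))
  refine ⟨E, hE, ?_, ?_⟩
  · -- non-synthesis
    refine ⟨fun x => 1 + (-8) * h 13 x + (-1) * v 13 x, ⟨_, hu1 13⟩, ?_, ?_⟩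
    · intro x hx
      show 1 + (-8) * h 13 x + (-1) * v 13 x = 0
      rw [hv2 13 x hx]; ring
    · intro hJ
      obtain ⟨a, ha1, ha2, ha3, ha4⟩ := hh1 13
      obtain ⟨b, hb1, hb2, hb3⟩ := hv1 13
      obtain ⟨g, ⟨c, hc1, hc2, hc3⟩, U, hU, hEU, hg⟩ := hJ (1 / 16) (by norm_num)
      have hsumC : ∀ (v : Finset ℕ → ℂ), Summable (fun S => ‖v S‖) → ∀ (t : Finset ℕ → ℝ) (C : ℝ),
          (∀ S, |t S| ≤ C) → Summable (fun S => v S * ((t S : ℝ) : ℂ)) := by
        intro v hv t C ht
        apply Summable.of_norm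
        refine Summable.of_nonneg_of_le (fun _ => norm_nonneg _) (fun S => ?_) (hv.mul_right C)
        rw [norm_mul, Complex.norm_real, Real.norm_eq_abs]
        exact mul_le_mul_of_nonneg_left (ht _) (norm_nonneg _)
      have hδ : Summable (fun S : Finset ℕ => ‖(if S = ∅ then (1 : ℂ) else 0)‖) := by
        apply summable_of_ne_finset_zero (s := {∅})
        intro T hT
        simp at hT
        simp [hT]
      have hbound : ∀ (v : Finset ℕ → ℂ) (K : ℝ), Summable (fun S => ‖v S‖) → (∑' S, ‖v S‖) ≤ K →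
          ‖∑' S, v S * ((s S : ℝ) : ℂ)‖ ≤ K * (3 / 2) := by
        intro v K hv hK
        have h6 : Summable (fun S => ‖v S * ((s S : ℝ) : ℂ)‖) := by
          refine Summable.of_nonneg_of_le (fun _ => norm_nonneg _) (fun S => ?_)
            (hv.mul_right (3 / 2))
          rw [norm_mul, Complex.norm_real, Real.norm_eq_abs]
          exact mul_le_mul_of_nonneg_left (hs1 _) (norm_nonneg _)
        refine (norm_tsum_le_tsum_norm h6).trans ?_
        calc ∑' S, ‖v S * ((s S : ℝ) : ℂ)‖ ≤ ∑' S, ‖v S‖ * (3 / 2) := by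
              refine h6.tsum_le_tsum (fun S => ?_) (hv.mul_right (3 / 2))
              rw [norm_mul, Complex.norm_real, Real.norm_eq_abs]
              exact mul_le_mul_of_nonneg_left (hs1 _) (norm_nonneg _)
          _ = (∑' S, ‖v S‖) * (3 / 2) := tsum_mul_right
          _ ≤ K * (3 / 2) := by linarith
      -- linear combination of the coefficients
      have hlin : ∀ (t : Finset ℕ → ℝ) (C : ℝ), (∀ S, |t S| ≤ C) →
          ∑' S, ((if S = ∅ then (1 : ℂ) else 0) + (-8) * a S + (-1) * b S + (-1) * c S) *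
            ((t S : ℝ) : ℂ) = ((t ∅ : ℝ) : ℂ) + (-8) * ∑' S, a S * ((t S : ℝ) : ℂ) +
              (-1) * ∑' S, b S * ((t S : ℝ) : ℂ) + (-1) * ∑' S, c S * ((t S : ℝ) : ℂ) := by
        intro t C ht
        have e0 := hsumC _ hδ t C ht
        have e1 := hsumC a ha1 t C ht
        have e2 := hsumC b hb1 t C ht
        have e3 := hsumC c hc1 t C ht
        have e4 : ∑' S, (if S = ∅ then (1 : ℂ) else 0) * ((t S : ℝ) : ℂ) = ((t ∅ : ℝ) : ℂ) := by
          rw [tsum_eq_single ∅]
          · simp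
          · intro S hS; simp [hS]
        rw [← e4, ← tsum_mul_left, ← tsum_mul_left, ← tsum_mul_left,
          ← e0.tsum_add (e1.mul_left _), ← (e0.add (e1.mul_left _)).tsum_add (e2.mul_left _),
          ← ((e0.add (e1.mul_left _)).add (e2.mul_left _)).tsum_add (e3.mul_left _)]
        exact tsum_congr fun S => by ring
      have hcomb : Summable (fun S => ‖(if S = ∅ then (1 : ℂ) else 0) + (-8) * a S + (-1) * b S +
          (-1) * c S‖) := by
        have k1 : Summable (fun S => ‖(-8 : ℂ) * a S‖) := by simpa using ha1.mul_left 8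
        have k2 : Summable (fun S => ‖(-1 : ℂ) * b S‖) := by simpa using hb1
        have k3 : Summable (fun S => ‖(-1 : ℂ) * c S‖) := by simpa using hc1
        refine Summable.of_nonneg_of_le (fun _ => norm_nonneg _) (fun S => ?_)
          (((hδ.add k1).add k2).add k3)
        refine (norm_add_le _ _).trans (add_le_add_left ?_ _)
        refine (norm_add_le _ _).trans (add_le_add_left ?_ _)
        exact norm_add_le _ _
      have h0 := hs4 _ hcomb ⟨U, hU, hEU, fun x hx => by
        rw [hlin (fun S => w S x) 1 (fun S => (abs_w S x).le)]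
        have h1 : 1 + (-8) * h 13 x + (-1) * v 13 x = g x := hg x hx
        rw [hc3 x, ha3 x, hb3 x] at h1
        have h2 : ((w ∅ x : ℝ) : ℂ) = 1 := by simp [w]
        rw [h2]
        linear_combination h1⟩
      rw [hlin s (3 / 2) hs1] at h0
      have hb4 := hbound b _ hb1 hb2
      have hc4 := hbound c _ hc1 hc2
      have h5 : ((s ∅ : ℝ) : ℂ) = 8 * ∑' S, a S * ((s S : ℝ) : ℂ) + ∑' S, b S * ((s S : ℝ) : ℂ) +
          ∑' S, c S * ((s S : ℝ) : ℂ) := by
        linear_combination h0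
      have h6 : ‖((s ∅ : ℝ) : ℂ)‖ ≤ 8 * (1 / 2) ^ 13 + 64 * (8 * (1 / 2) ^ 13) * (3 / 2) +
          1 / 16 * (3 / 2) := by
        rw [h5]
        refine (norm_add_le _ _).trans (add_le_add ?_ hc4)
        refine (norm_add_le _ _).trans (add_le_add ?_ hb4)
        rw [norm_mul]
        have h7 : ‖(8 : ℂ)‖ = 8 := by simp
        rw [h7]
        exact mul_le_mul_of_nonneg_left ha4 (by norm_num)
      rw [Complex.norm_real, Real.norm_eq_abs, abs_of_nonneg (by linarith)] at h6
      norm_num at h6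
      linarith
  · intro u
    obtain ⟨f, hf, hfu⟩ := helsonB E hE h hh2 hσ u ‖u‖ (norm_nonneg _)
      (fun x => ContinuousMap.norm_coe_le_norm u x)
    exact ⟨f, ⟨_, hf⟩, hfu⟩

end WD
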